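import Pool.Agent.H97.MM.Fam2
import Pool.Agent.H91.MM.Alc
import Pool.Agent.H45.EXA.Nbc
import Pool.Agent.H91.LA.Sup

/-!
# Data of the line do not see the position: one coordinate, in a class

`FrD`: the velocity is free of the record of `l`. `AlD`: it is alive. `XfC`: the position is few bits
given the record of `l`. `FewA`: the datum of the line is few bits given the record of `l` and the
first digits of the velocity, on all large parts. `mfc`: the class theorem.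
-/

set_option autoImplicit false

namespace Pool.MM97

open Finset Real
open Pool.Agent.H49.Ent Pool.Agent.H32.Dense Pool.STK Pool.OWN68 Pool.PR46 Pool.MM91 Pool.KA
open Pool.KSAT Pool.K2S Pool.PB Pool.GEN Pool.S6C Pool.LA91 Pool.RCD
open Pool.BFL (Pb)
open Pool.AVG71 (CH_pair_int)

variable {m : ℕ}

/-- **The velocity is free**: `N` digits, the records of `w` and `l`. -/
def FrD (S : PCl m) (k : Fin m) (N w l κ : ℝ) : Prop :=
  ∃ k₂ : ℝ, 0 < k₂ ∧ Bas S (fun J F A => ∀ (V : Type) (z : F.Ω → V) (V' : Type) (z' : F.Ω → V'),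
    Mx (fun J F => ptr F J) (vg w) k₂ F A z → Mx (fun J F => ptr F J) (vg l) k₂ F A z' →
    CH (Pool.Agent.H49.Ent.cond F.p A True) (fun ω => F.D ⌊N * J⌋₊ ω k) (fun ω => (z ω, F.W ω)) ≤
      CH (Pool.Agent.H49.Ent.cond F.p A True) (fun ω => F.D ⌊N * J⌋₊ ω k)
        (fun ω => (z' ω, F.W ω)) + κ * J)

/-- **The velocity is alive** between the digits `n₁` and `n₂`. -/
def AlD (S : PCl m) (k : Fin m) (n₁ n₂ ν : ℝ) : Prop :=
  Bas S (fun J F A => ν * J ≤ CH (Pool.Agent.H49.Ent.cond F.p A True)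
    (fun ω => F.D ⌊n₂ * J⌋₊ ω k) (fun ω => (F.D ⌊n₁ * J⌋₊ ω, (F.X J ω, F.W ω))))

/-- The digits of the position are few bits given the record of `l`. -/
def XfC (S : PCl m) (k : Fin m) (n l κ : ℝ) : Prop :=
  Bas S (fun J F A => ∃ (V₁ : Type) (z₁ : F.Ω → V₁), Cl2 (ptr F J) (vg l J F) A z₁ ∧
    CH (Pool.Agent.H49.Ent.cond F.p A True) (fun ω => F.X ⌊n * J⌋₊ ω k)
      (fun ω => (z₁ ω, F.W ω)) ≤ κ * J)

/-- **The datum `a` of the line is few bits** given the record of `l` and the first digits of the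
velocity, on all parts of size `c₀`. -/
def FewA {J : ℕ} (F : Fam m J) (k : Fin m) (N w l κ c₀ : ℝ) (A : F.Ω → Prop) {𝒜 : Type}
    (a : LnT F → 𝒜) : Prop :=
  ∀ B : F.Ω → Prop, Sub B A → c₀ * Pe F.p A ≤ Pe F.p B → ∃ (V₁ : Type) (z₁ : F.Ω → V₁),
    Cl2 (ptr F J) (vg l J F) B z₁ ∧ CH (Pool.Agent.H49.Ent.cond F.p B True)
      (fun ω => a (slam F ⌊w * J⌋₊ ω)) (fun ω => (F.D ⌊N * J⌋₊ ω k, (z₁ ω, F.W ω))) ≤ κ * J

/-! ### Small facts -/

theorem cond_evM {Ω : Type} [Fintype Ω] (p : Ω → ℝ) (A : Ω → Prop) [DecidablePred A] (ω : Ω) :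
    Pool.Agent.H49.Ent.cond p A True ω = if A ω then p ω / Pe p A else 0 := by
  classical
  unfold Pool.Agent.H49.Ent.cond
  by_cases h : A ω
  · rw [if_pos (eq_true h), if_pos h]
  · rw [if_neg (fun h' => h (of_eq_true h')), if_neg h]

/-- Conditioning twice. -/
theorem cond_andM {Ω : Type} [Fintype Ω] (p : Ω → ℝ) {A B : Ω → Prop} (hA : Pe p A ≠ 0) :
    Pool.Agent.H49.Ent.cond (Pool.Agent.H49.Ent.cond p A True) B True =
      Pool.Agent.H49.Ent.cond p (fun ω => A ω ∧ B ω) True := by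
  classical
  funext ω
  rw [cond_evM, cond_evM, cond_evM, Pe_cond B]
  by_cases h1 : A ω
  · by_cases h2 : B ω
    · rw [if_pos h2, if_pos h1, if_pos (⟨h1, h2⟩ : A ω ∧ B ω), div_div_div_cancel_right₀ hA]
    · rw [if_neg h2, if_neg (fun h : A ω ∧ B ω => h2 h.2)]
  · rw [if_neg h1, if_neg (fun h : A ω ∧ B ω => h1 h.1), zero_div]
    split_ifs <;> rfl

/-- Fewer digits. -/
theorem fl_coarse {a b : ℕ} (h : a ≤ b) {x y : ℝ} (e : ⌊(2 : ℝ) ^ b * x⌋ = ⌊(2 : ℝ) ^ b * y⌋) :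
    ⌊(2 : ℝ) ^ a * x⌋ = ⌊(2 : ℝ) ^ a * y⌋ := by
  have key : ∀ c : ℝ, ⌊(2 : ℝ) ^ a * c⌋ = ⌊(2 : ℝ) ^ b * c⌋ / ((2 ^ (b - a) : ℕ) : ℤ) := by
    intro c
    rw [← Int.floor_div_natCast]
    congr 1
    have : (2 : ℝ) ^ b = 2 ^ a * 2 ^ (b - a) := by
      rw [← pow_add]
      congr 1
      omega
    rw [this]
    push_cast
    field_simp
  rw [key, key, e]

/-- One more digit of the velocity. -/
theorem D_succ {J : ℕ} {F : Fam m J} {p : F.Ω → ℝ} (hp : IsLaw p) (k : Fin m) {a b : ℕ}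
    (hb : b ≤ a + 1) {𝓦 : Type} (Z : F.Ω → 𝓦) :
    CH p (fun ω => F.D b ω k) (fun ω => (F.D a ω k, Z ω)) ≤ 2 := by
  have e5 : Real.log (2 * 3 + 1) ≤ 2 := by
    have h1 : Real.log (2 * 3 + 1) ≤ Real.log (Real.exp 2) := by
      refine Real.log_le_log (by norm_num) ?_
      have h2 := Real.exp_one_gt_d9
      have h3 : Real.exp 2 = Real.exp 1 * Real.exp 1 := by rw [← Real.exp_add]; norm_num
      rw [h3]
      nlinarith
    rwa [Real.log_exp] at h1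
  refine (CH_pair_int hp _ _ (D := 3) (by norm_num) fun ω ω' _ _ h => ?_).trans e5
  have h1 : ⌊(2 : ℝ) ^ a * F.d ω k⌋ = ⌊(2 : ℝ) ^ a * F.d ω' k⌋ := (Prod.ext_iff.mp h).1
  have h2 := (Int.abs_sub_lt_one_of_floor_eq_floor h1).le
  have h3 : |(2 : ℝ) ^ b * F.d ω k - 2 ^ b * F.d ω' k| ≤ 2 := by
    rw [← mul_sub, abs_mul, abs_of_pos (by positivity)] at h2 ⊢
    have h4 : (2 : ℝ) ^ b ≤ 2 ^ (a + 1) := pow_le_pow_right₀ (by norm_num) hb
    rw [pow_succ] at h4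
    have h5 := mul_le_mul_of_nonneg_right h4 (abs_nonneg (F.d ω k - F.d ω' k))
    linarith
  show |((⌊(2 : ℝ) ^ b * F.d ω k⌋ : ℤ) : ℝ) - (⌊(2 : ℝ) ^ b * F.d ω' k⌋ : ℤ)| ≤ 3
  obtain ⟨x, hx⟩ : ∃ x : ℝ, x = 2 ^ b * F.d ω k := ⟨_, rfl⟩
  obtain ⟨x', hx'⟩ : ∃ x : ℝ, x = 2 ^ b * F.d ω' k := ⟨_, rfl⟩
  rw [← hx, ← hx'] at h3 ⊢
  have i1 := Int.floor_le x
  have i2 := Int.lt_floor_add_one x
  have i3 := Int.floor_le x'
  have i4 := Int.lt_floor_add_one x'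
  rw [abs_le] at h3 ⊢
  constructor <;> linarith [h3.1, h3.2]

/-- The whole time given the line with its window. -/
theorem time_w {S : PCl m} {C₀ : ℝ} (htm : TmC S C₀) {w : ℝ} (hw : w ≤ 1) {ψ : ℝ} (hψ : 0 < ψ) :
    Bas S (fun J F A => 0 < Pe F.p A ∧ ((J : ℝ) - (⌊w * J⌋₊ : ℕ)) * Real.log 2 - ψ * J ≤
      CH (Pool.Agent.H49.Ent.cond F.p A True) F.T (slam F ⌊w * J⌋₊)) := by
  refine Bas.mono 0 (Pool.GRW.TmC.wn htm w ψ hψ) ?_
  rintro J - F A ⟨h1, h2⟩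
  have hJ0 : (0 : ℝ) ≤ J := Nat.cast_nonneg J
  have hW : ⌊w * J⌋₊ ≤ J := by
    refine Nat.floor_le_of_le ?_
    nlinarith
  have h3 := h2 (J - ⌊w * J⌋₊) (by omega)
  have e1 : ⌊w * J⌋₊ + (J - ⌊w * J⌋₊) = J := by omega
  rw [e1, Nat.cast_sub hW] at h3
  have e2 : F.T1 J = F.T := by
    funext ω
    unfold Fam.T1
    simp
  rw [e2] at h3
  exact ⟨h1, h3⟩

/-- A finer quantity in the condition can be removed. -/
theorem CH_sub2 {Ω S T R : Type} [Fintype Ω] {p : Ω → ℝ} (h0 : ∀ ω, 0 ≤ p ω) (E' : Ω → S)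
    (E : Ω → T) (Z : Ω → R) (h : Det p E' E) :
    CH p E' (fun ω => (E ω, Z ω)) = CH p E' Z - CH p E Z := by
  have h1 := mi_sym h0 E' E Z
  have h2 : CH p E (fun ω => (E' ω, Z ω)) = 0 :=
    CH_eq_zero h0 fun ω ω' a b e => h ω ω' a b (Prod.ext_iff.mp e).1
  linarith

end Pool.MM97
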