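import Pool.Agent.H97.MM.Cls

/-!
# Data of the line do not see the position: the class theorem
-/

set_option autoImplicit false

namespace Pool.MM97

open Finset Real
open Pool.Agent.H49.Ent Pool.Agent.H32.Dense Pool.STK Pool.OWN68 Pool.PR46 Pool.MM91 Pool.KA
open Pool.KSAT Pool.K2S Pool.PB Pool.GEN Pool.S6C Pool.LA91 Pool.RCD
open Pool.BFL (Pb)
open Pool.AVG71 (CH_pair_int)

variable {m : ℕ}

section one

variable {J : ℕ} {F : Fam m J} {A : F.Ω → Prop} {k : Fin m} {W N₀ K b Nw Nv : ℕ}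
  {V Vl 𝒜 : Type} {z : F.Ω → V} {zl : LnT F → V} {zr : F.Ω → Vl} {φ : PtT F → V}
  {φr : PtT F → Vl} {a : LnT F → 𝒜}

/-- The point datum `G`. -/
noncomputable def Gd (F : Fam m J) (k : Fin m) (W N₀ K : ℕ) {Vl : Type} (zr : F.Ω → Vl)
    (ω : F.Ω) : ℤ × (Vl × ((ℕ × F.ζ) × ℤ)) :=
  (F.D (N₀ - W) ω k, (zr ω, (F.W ω, F.X (N₀ + K) ω k)))

/-- **Free** with the point datum. -/
theorem free_G (hp : IsLaw (Pool.Agent.H49.Ent.cond F.p A True)) (hWN : W ≤ N₀)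
    (h1 : Nw ≤ N₀ + K - W) (h2 : N₀ + K - W ≤ Nw + 1) {e : ℝ}
    (hz : CH (Pool.Agent.H49.Ent.cond F.p A True) z zr ≤ e)
    (hX : CH (Pool.Agent.H49.Ent.cond F.p A True) (fun ω => F.X (N₀ + K) ω k)
      (fun ω => (zr ω, F.W ω)) ≤ 2 * e)
    (hfr : CH (Pool.Agent.H49.Ent.cond F.p A True) (fun ω => F.D Nw ω k)
      (fun ω => (z ω, F.W ω)) ≤ CH (Pool.Agent.H49.Ent.cond F.p A True) (fun ω => F.D Nw ω k)
      (fun ω => (zr ω, F.W ω)) + e) :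
    CH (Pool.Agent.H49.Ent.cond F.p A True) (fun ω => F.D (N₀ + K - W) ω k)
      (fun ω => (F.D (N₀ - W) ω k, (z ω, F.W ω))) - (4 * e + 2) ≤
    CH (Pool.Agent.H49.Ent.cond F.p A True) (fun ω => F.D (N₀ + K - W) ω k)
      (fun ω => (F.D (N₀ - W) ω k, Gd F k W N₀ K zr ω)) := by
  have h0 := hp.nonneg
  obtain ⟨q, hq⟩ : ∃ q, q = Pool.Agent.H49.Ent.cond F.p A True := ⟨_, rfl⟩
  rw [← hq] at h0 hz hX hfr hp ⊢
  obtain ⟨E', hE'⟩ : ∃ E' : F.Ω → ℤ, E' = fun ω => F.D (N₀ + K - W) ω k := ⟨_, rfl⟩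
  obtain ⟨E, hE⟩ : ∃ E : F.Ω → ℤ, E = fun ω => F.D (N₀ - W) ω k := ⟨_, rfl⟩
  obtain ⟨Ew, hEw⟩ : ∃ E : F.Ω → ℤ, E = fun ω => F.D Nw ω k := ⟨_, rfl⟩
  have d1 : Det q E' E := fun ω ω' _ _ h => by
    rw [hE'] at h
    rw [hE]
    exact fl_coarse (by omega) h
  have a1 := CH_sub2 h0 E' E (fun ω => (z ω, F.W ω)) d1
  have a2 := CH_sub2 h0 E' E (fun ω => (zr ω, F.W ω)) d1
  have b1 : CH q E' (fun ω => (z ω, F.W ω)) ≤ CH q Ew (fun ω => (z ω, F.W ω)) + 2 := by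
    have c1 := CH_le_add h0 E' Ew (fun ω => (z ω, F.W ω))
    have c2 := D_succ hp k h2 (fun ω => (z ω, F.W ω))
    rw [hE', hEw] at c1 ⊢
    linarith
  have b2 : CH q Ew (fun ω => (zr ω, F.W ω)) ≤ CH q E' (fun ω => (zr ω, F.W ω)) := by
    refine CH_mono_left h0 fun ω ω' _ _ h => ?_
    have c1 := (Prod.ext_iff.mp h).1
    rw [hE'] at c1
    rw [hEw]
    exact fl_coarse h1 c1
  have b3 : CH q E (fun ω => (zr ω, F.W ω)) ≤ CH q E (fun ω => (z ω, F.W ω)) + e := by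
    have c1 := CH_le_add h0 E z (fun ω => (zr ω, F.W ω))
    have c2 : CH q z (fun ω => (zr ω, F.W ω)) ≤ CH q z zr :=
      CH_mono_cond h0 fun ω ω' _ _ h => (Prod.ext_iff.mp h).1
    have c3 : CH q E (fun ω => (z ω, (zr ω, F.W ω))) ≤ CH q E (fun ω => (z ω, F.W ω)) := by
      refine CH_mono_cond h0 fun ω ω' _ _ h => ?_
      simp only [Prod.mk.injEq] at h ⊢
      exact ⟨h.1, h.2.2⟩
    linarith
  have b4 := CH_cond_add h0 E' (fun ω => F.X (N₀ + K) ω k) (fun ω => (E ω, (zr ω, F.W ω)))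
  have b5 : CH q (fun ω => F.X (N₀ + K) ω k) (fun ω => (E ω, (zr ω, F.W ω))) ≤
      CH q (fun ω => F.X (N₀ + K) ω k) (fun ω => (zr ω, F.W ω)) :=
    CH_mono_cond h0 fun ω ω' _ _ h => (Prod.ext_iff.mp h).2
  have b6 : CH q E' (fun ω => (F.X (N₀ + K) ω k, (E ω, (zr ω, F.W ω)))) ≤
      CH q E' (fun ω => (E ω, Gd F k W N₀ K zr ω)) := by
    refine CH_mono_cond h0 fun ω ω' _ _ h => ?_
    simp only [Prod.mk.injEq] at h
    obtain ⟨g1, g2, g3, g4⟩ := h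
    unfold Gd
    have g5 : F.D (N₀ - W) ω k = F.D (N₀ - W) ω' k := by rw [hE] at g2; exact g2
    simp only [Prod.mk.injEq]
    exact ⟨g2, g5, g3, g4, g1⟩
  rw [← hEw] at hfr
  have e1 : (fun ω => (F.D (N₀ - W) ω k, (z ω, F.W ω))) = fun ω => (E ω, (z ω, F.W ω)) := by
    rw [hE]
  have e2 : (fun ω => (F.D (N₀ - W) ω k, Gd F k W N₀ K zr ω)) =
      fun ω => (E ω, Gd F k W N₀ K zr ω) := by rw [hE]
  rw [← hE', e1, e2]
  linarith

/-- **Alive** with the point datum, on one event. -/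
theorem alive_G (hp : IsLaw (Pool.Agent.H49.Ent.cond F.p A True)) (hWN : W ≤ N₀) (hWJ : W ≤ J)
    (hKJ : N₀ + K ≤ J) (hbK : b ≤ K) (h1 : Nv ≤ N₀ - W) (h2 : N₀ - W ≤ Nv + 1) {Na : ℕ}
    (h3 : Na ≤ N₀ - W + b) {ν : ℝ} (hzl : ∀ ω, A ω → zl (slam F W ω) = φ (ptr F J ω))
    (hzr : ∀ ω, A ω → zr ω = φr (ptr F J ω))
    (hal : ν ≤ CH (Pool.Agent.H49.Ent.cond F.p A True) (fun ω => F.D Na ω k)
      (fun ω => (F.D Nv ω, (F.X J ω, F.W ω)))) :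
    ν - 5 ≤ CH (Pool.Agent.H49.Ent.cond F.p A True)
      (fun ω => ⌊(El F k (N₀ + K - W) (slam F W ω) : ℝ) / 2 ^ (K - b)⌋)
      (fun ω => (Gd F k W N₀ K zr ω, Cn F k W N₀ (N₀ - W) zl (slam F W ω))) := by
  have h0 := hp.nonneg
  have hsup : ∀ ω, 0 < Pool.Agent.H49.Ent.cond F.p A True ω → A ω := fun ω h => of_cond_pos h
  obtain ⟨q, hq⟩ : ∃ q, q = Pool.Agent.H49.Ent.cond F.p A True := ⟨_, rfl⟩
  rw [← hq] at h0 hal hp hsup ⊢
  have a1 := CH_le_add h0 (fun ω => F.D Na ω k) (fun ω => F.D (N₀ - W) ω k)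
    (fun ω => (F.D Nv ω, (F.X J ω, F.W ω)))
  have a2 : CH q (fun ω => F.D (N₀ - W) ω k) (fun ω => (F.D Nv ω, (F.X J ω, F.W ω))) ≤ 2 := by
    refine le_trans (CH_mono_cond h0 fun ω ω' _ _ h => ?_) (D_succ hp k h2 (fun _ => ()))
    exact Prod.ext (congrFun (Prod.ext_iff.mp h).1 k) rfl
  have a3 := CH_le_add h0 (fun ω => F.D Na ω k) (fun ω => Xl F k W N₀ (slam F W ω))
    (fun ω => (F.D (N₀ - W) ω k, (F.D Nv ω, (F.X J ω, F.W ω))))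
  have a4 : CH q (fun ω => Xl F k W N₀ (slam F W ω))
      (fun ω => (F.D (N₀ - W) ω k, (F.D Nv ω, (F.X J ω, F.W ω)))) ≤ 3 := by
    have hl7 : Real.log (2 * 3 + 1) ≤ 3 := by
      have h8 : Real.log (2 * 3 + 1) ≤ Real.log (2 ^ 3) :=
        Real.log_le_log (by norm_num) (by norm_num)
      rw [Real.log_pow] at h8
      have := Real.log_two_lt_d9
      push_cast at h8
      linarith
    refine le_trans (CH_pair_int hp _ _ (by norm_num) fun ω ω' hω hω' h => ?_) hl7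
    simp only [Prod.mk.injEq] at h
    obtain ⟨g1, g2, g3, g4⟩ := h
    have c6 : F.T ω = F.T ω' := (Prod.ext_iff.mp g4).1
    have c7 := x_near (k := k) hWN hWJ c6 g1
    have c9 : |2 ^ N₀ * F.x ω k - 2 ^ N₀ * F.x ω' k| ≤ 1 := by
      have g5 : ⌊(2 : ℝ) ^ J * F.x ω k⌋ = ⌊(2 : ℝ) ^ J * F.x ω' k⌋ := congrFun g3 k
      exact (Int.abs_sub_lt_one_of_floor_eq_floor (fl_coarse (by omega) g5)).le
    obtain ⟨x, hx⟩ : ∃ x : ℝ, x = 2 ^ N₀ * xsl F k W (slam F W ω) := ⟨_, rfl⟩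
    obtain ⟨x', hx'⟩ : ∃ x : ℝ, x = 2 ^ N₀ * xsl F k W (slam F W ω') := ⟨_, rfl⟩
    show |((⌊2 ^ N₀ * xsl F k W (slam F W ω)⌋ : ℤ) : ℝ) -
      (⌊2 ^ N₀ * xsl F k W (slam F W ω')⌋ : ℤ)| ≤ 3
    rw [← hx, ← hx'] at c7 ⊢
    have i1 := Int.floor_le x
    have i2 := Int.lt_floor_add_one x
    have i3 := Int.floor_le x'
    have i4 := Int.lt_floor_add_one x'
    rw [abs_le] at c7 c9 ⊢
    constructor <;> linarith [c7.1, c7.2, c9.1, c9.2]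
  have a5 : CH q (fun ω => F.D Na ω k) (fun ω => (Xl F k W N₀ (slam F W ω),
      (F.D (N₀ - W) ω k, (F.D Nv ω, (F.X J ω, F.W ω))))) ≤
      CH q (fun ω => F.D Na ω k)
      (fun ω => (Gd F k W N₀ K zr ω, Cn F k W N₀ (N₀ - W) zl (slam F W ω))) := by
    refine CH_mono_cond h0 fun ω ω' hω hω' h => ?_
    simp only [Prod.mk.injEq] at h
    obtain ⟨g1, g2, -, g4, g5⟩ := h
    have gp : ptr F J ω = ptr F J ω' := Prod.ext g4 g5
    have hA := hsup ω hω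
    have hA' := hsup ω' hω'
    have g6 : zr ω = zr ω' := by rw [hzr ω hA, hzr ω' hA', gp]
    have g7 : zl (slam F W ω) = zl (slam F W ω') := by rw [hzl ω hA, hzl ω' hA', gp]
    have g8 : F.X (N₀ + K) ω k = F.X (N₀ + K) ω' k := by
      have g9 : ⌊(2 : ℝ) ^ J * F.x ω k⌋ = ⌊(2 : ℝ) ^ J * F.x ω' k⌋ := congrFun g4 k
      exact fl_coarse hKJ g9
    have g9 : (slam F W ω).2 = (slam F W ω').2 := by
      refine Prod.ext (Prod.ext_iff.mp g5).2 ?_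
      have gT : F.T ω = F.T ω' := (Prod.ext_iff.mp g5).1
      show F.T1 W ω = F.T1 W ω'
      unfold Fam.T1
      rw [gT]
    unfold Gd Cn
    simp only [Prod.mk.injEq]
    exact ⟨⟨g2, g6, g5, g8⟩, g9, g7, g1, g2⟩
  have a6 : CH q (fun ω => F.D Na ω k)
      (fun ω => (Gd F k W N₀ K zr ω, Cn F k W N₀ (N₀ - W) zl (slam F W ω))) ≤
      CH q (fun ω => ⌊(El F k (N₀ + K - W) (slam F W ω) : ℝ) / 2 ^ (K - b)⌋)
      (fun ω => (Gd F k W N₀ K zr ω, Cn F k W N₀ (N₀ - W) zl (slam F W ω))) := by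
    refine CH_mono_left h0 fun ω ω' _ _ h => ?_
    have g1 := (Prod.ext_iff.mp h).1
    have key : ∀ o : F.Ω, ⌊(El F k (N₀ + K - W) (slam F W o) : ℝ) / 2 ^ (K - b)⌋ =
        ⌊(2 : ℝ) ^ (N₀ - W + b) * F.d o k⌋ := by
      intro o
      have e1 : El F k (N₀ + K - W) (slam F W o) = ⌊(2 : ℝ) ^ (N₀ + K - W) * F.d o k⌋ := rfl
      rw [e1]
      have e2 : (2 : ℝ) ^ (K - b) = ((2 ^ (K - b) : ℕ) : ℝ) := by push_cast; rfl
      have e3 := Int.floor_div_natCast ((⌊(2 : ℝ) ^ (N₀ + K - W) * F.d o k⌋ : ℤ) : ℝ) (2 ^ (K - b))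
      rw [Int.floor_intCast] at e3
      have e4 := Int.floor_div_natCast ((2 : ℝ) ^ (N₀ + K - W) * F.d o k) (2 ^ (K - b))
      rw [e2, e3, ← e4]
      congr 1
      have e5 : (2 : ℝ) ^ (N₀ + K - W) = 2 ^ (N₀ - W + b) * 2 ^ (K - b) := by
        rw [← pow_add]
        congr 1
        omega
      rw [e5]
      push_cast
      field_simp
    simp only [key] at g1
    exact fl_coarse h3 g1
  linarith

end one

end Pool.MM97
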