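import Pool.Agent.H97.MM.Cls3

/-!
# Data of the line do not see the position: the class theorem
-/

set_option autoImplicit false

namespace Pool.MM97

open Finset Real
open Pool.Agent.H49.Ent Pool.Agent.H32.Dense Pool.STK Pool.OWN68 Pool.PR46 Pool.MM91 Pool.KA
open Pool.KSAT Pool.K2S Pool.PB Pool.GEN Pool.S6C Pool.LA91 Pool.RCD
open Pool.BFL (Pb)
open Pool.AVG71 (CH_pair_int)

variable {m : ℕ}

/-- **(M) for one coordinate, in a class.** The digits `n, …, n'` of the position at the time are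
full given the first digits, the velocity to `n' - w` digits, any datum `a` of the line with the
window `w` which is few bits given the record of `l`, the record of `w`, and the time. -/
theorem mfc {S : PCl m} {C₀ : ℝ}
    (hpos : ∀ (τ : ℝ) (J : ℕ) (F : Fam m J) (A : F.Ω → Prop), S.St τ J F A → 0 < Pe F.p A)
    (htm : TmC S C₀) {k : Fin m} {w l n n' β κ ν η δ : ℝ} (hw0 : 0 ≤ w) (hwn : w ≤ n)
    (hβ : 0 < β) (hnn : n + β < n') (hwK : w + (n' - n) < 1) (hwl : w ≤ l) (hl1 : l ≤ 1)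
    (hn1 : n' ≤ 1) (hκ : 0 < κ) (hν : 5 * κ < ν) (hδ : 0 < δ) (hδ1 : δ ≤ 1)
    (hη : RNum S (fun J F => ptr F J) (vg l) η) (hfr : FrD S k (n' - w) w l κ)
    (hal : AlD S k (n - w) (n - w + β) ν) (hX : XfC S k n' l κ) :
    ∃ k₁ : ℝ, 0 < k₁ ∧ Bas S (fun J F A => ∀ (V : Type) (z : F.Ω → V),
      Mx (fun J F => ptr F J) (vg w) k₁ F A z → ∀ (𝒜 : Type) (a : LnT F → 𝒜),
      FewA F k (n - w) w l κ (δ / 2) A a →
      ((n' - n - β - δ * (n' - n)) * Real.log 2 - 200 * κ) * J ≤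
        CH (Pool.Agent.H49.Ent.cond F.p A True) (fun ω => F.X ⌊n' * J⌋₊ ω k)
          (fun ω => (F.X ⌊n * J⌋₊ ω k, (F.D ⌊(n' - w) * J⌋₊ ω k,
            (a (slam F ⌊w * J⌋₊ ω), (z ω, F.W ω)))))) := by
  obtain ⟨k₂, hk₂, hfr⟩ := hfr
  obtain ⟨h, hh⟩ : ∃ h, h = min κ k₂ := ⟨_, rfl⟩
  have hh0 : 0 < h := by rw [hh]; exact lt_min hκ hk₂
  have hhκ : h ≤ κ := by rw [hh]; exact min_le_left _ _
  have hhk : h ≤ k₂ := by rw [hh]; exact min_le_right _ _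
  obtain ⟨κ', hκ', hmax⟩ := hη.max hpos h hh0
  have g0 : 0 < 1 - (w + (n' - n)) := by linarith
  have g1 : 0 < n' - n - β := by linarith
  have g2 : 0 < ν - 2 * κ := by linarith
  obtain ⟨J₁, hJ₁⟩ := exists_nat_ge (1 / (1 - (w + (n' - n))))
  obtain ⟨J₂, hJ₂⟩ := exists_nat_ge (2 / (n' - n - β))
  obtain ⟨J₃, hJ₃⟩ := exists_nat_ge (-Real.log (δ / 2) / κ')
  obtain ⟨J₄, hJ₄⟩ := exists_nat_ge ((150 + 3 * δ) / (28 * κ))
  obtain ⟨J₅, hJ₅⟩ := exists_nat_ge ((Real.log (6 / δ) + 6) / (ν - 2 * κ))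
  refine ⟨k₂, hk₂, Bas.mono (J₁ + J₂ + J₃ + J₄ + J₅) ((((time_w htm (w := w) (by linarith) hκ).and
    hfr).and (hmax.and (hη.at' (h / 2) (half_pos hh0)))).and
    ((Pool.LBK.Bas.ev hal (half_pos hδ)).and hX)) ?_⟩
  rintro J hJ F A ⟨⟨⟨⟨hA, hT⟩, hfr⟩, hmax, Vl, zr, hzr, hcell⟩, hal, V₁, z₁, hz₁, hX⟩ V z hz 𝒜 a ha
  have jc : ((J₁ + J₂ + J₃ + J₄ + J₅ : ℕ) : ℝ) ≤ J := by exact_mod_cast hJ
  push_cast at jc
  have n1 : (0 : ℝ) ≤ J₁ := Nat.cast_nonneg _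
  have n2 : (0 : ℝ) ≤ J₂ := Nat.cast_nonneg _
  have n3 : (0 : ℝ) ≤ J₃ := Nat.cast_nonneg _
  have n4 : (0 : ℝ) ≤ J₄ := Nat.cast_nonneg _
  have n5 : (0 : ℝ) ≤ J₅ := Nat.cast_nonneg _
  have hJ0 : (0 : ℝ) ≤ J := Nat.cast_nonneg J
  have j1 : 1 ≤ (1 - (w + (n' - n))) * J := by
    have h1 : 1 / (1 - (w + (n' - n))) ≤ J := by linarith
    rw [div_le_iff₀ g0] at h1
    linarith
  have j2 : 2 ≤ (n' - n - β) * J := by
    have h1 : 2 / (n' - n - β) ≤ J := by linarith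
    rw [div_le_iff₀ g1] at h1
    linarith
  have j3 : Real.exp (-(κ' * J)) ≤ δ / 2 := by
    have h1 : -Real.log (δ / 2) / κ' ≤ J := by linarith
    rw [div_le_iff₀ hκ'] at h1
    have h2 : Real.exp (-(κ' * J)) ≤ Real.exp (Real.log (δ / 2)) :=
      Real.exp_le_exp.2 (by linarith)
    rwa [Real.exp_log (half_pos hδ)] at h2
  have j4 : 150 + 3 * δ ≤ 28 * κ * J := by
    have h1 : (150 + 3 * δ) / (28 * κ) ≤ J := by linarith
    rw [div_le_iff₀ (by positivity)] at h1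
    linarith
  have j5 : Real.log (6 / δ) + 6 ≤ (ν - 2 * κ) * J := by
    have h1 : (Real.log (6 / δ) + 6) / (ν - 2 * κ) ≤ J := by linarith
    rw [div_le_iff₀ g2] at h1
    linarith
  obtain ⟨W, N₀, K, b, hw⟩ := wn_ex hw0 hwn hβ hnn hn1 j1 j2
  have hW := hw.eW
  have hp := isLaw_cond F.isLaw hA
  have hp0 := hp.nonneg
  -- the record of `l`
  have hmx := hmax Vl zr hzr hcell
  have mA := hmx A (fun _ h => h) (by
    have h1 : Real.exp (-(κ' * J)) ≤ 1 := by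
      rw [Real.exp_le_one_iff]
      have : 0 ≤ κ' * (J : ℝ) := by positivity
      linarith
    calc _ ≤ 1 * Pe F.p A := mul_le_mul_of_nonneg_right h1 (Pe_nonneg F.isLaw A)
      _ = _ := one_mul _)
  have hhJ : h * J ≤ κ * J := mul_le_mul_of_nonneg_right hhκ hJ0
  have hMxr : Mx (fun J F => ptr F J) (vg l) k₂ F A zr := by
    refine ⟨hzr, fun V' z' hz' => ((mA.2.2 V' z' hz').2).trans ?_⟩
    exact mul_le_mul_of_nonneg_right hhk hJ0
  have hfr := hfr V z Vl zr hz hMxr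
  obtain ⟨⟨φ, hφ⟩, ψ, hψ⟩ := hz.1
  obtain ⟨φr, hφr⟩ := hzr.1
  have hψ' : ∀ ω, A ω → z ω = ψ (slam F W ω) := fun ω hω => by rw [hψ ω hω, hW]; rfl
  have hWl : W ≤ ⌊l * J⌋₊ := by
    rw [hW]
    exact Nat.floor_le_floor (mul_le_mul_of_nonneg_right hwl hJ0)
  have hlJ : ⌊l * J⌋₊ ≤ J := by
    refine Nat.floor_le_of_le ?_
    nlinarith
  have hzlate : Cl2 (ptr F J) (vg l J F) A z := by
    have h1 : Cl2 (ptr F J) (slam F W) A z := ⟨⟨φ, hφ⟩, ψ, hψ'⟩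
    exact cl2_late hWl hlJ h1
  have hzz : CH (Pool.Agent.H49.Ent.cond F.p A True) z zr ≤ κ * J :=
    ((mA.2.2 V z hzlate).2).trans hhJ
  have hXr : CH (Pool.Agent.H49.Ent.cond F.p A True) (fun ω => F.X (N₀ + K) ω k)
      (fun ω => (zr ω, F.W ω)) ≤ 2 * (κ * J) := by
    rw [hw.e1]
    have h1 := CH_le_add hp0 (fun ω => F.X ⌊n' * J⌋₊ ω k) z₁ (fun ω => (zr ω, F.W ω))
    have h2 : CH (Pool.Agent.H49.Ent.cond F.p A True) z₁ (fun ω => (zr ω, F.W ω)) ≤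
        CH (Pool.Agent.H49.Ent.cond F.p A True) z₁ zr :=
      CH_mono_cond hp0 fun ω ω' _ _ h => (Prod.ext_iff.mp h).1
    have h3 := (mA.2.2 V₁ z₁ hz₁).2
    have h4 : CH (Pool.Agent.H49.Ent.cond F.p A True) (fun ω => F.X ⌊n' * J⌋₊ ω k)
        (fun ω => (z₁ ω, (zr ω, F.W ω))) ≤ CH (Pool.Agent.H49.Ent.cond F.p A True)
        (fun ω => F.X ⌊n' * J⌋₊ ω k) (fun ω => (z₁ ω, F.W ω)) := by
      refine CH_mono_cond hp0 fun ω ω' _ _ h => ?_
      simp only [Prod.mk.injEq] at h ⊢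
      exact ⟨h.1, h.2.2⟩
    linarith
  -- few, on parts
  have few : ∀ B : F.Ω → Prop, Sub B A → δ / 2 * Pe F.p A ≤ Pe F.p B →
      0 < Pe F.p B ∧ CH (Pool.Agent.H49.Ent.cond F.p B True) (fun ω => a (slam F W ω))
        (Gd F k W N₀ K zr) ≤ 2 * (κ * J) := by
    intro B hB hPB
    obtain ⟨V₂, z₂, hz₂, h1⟩ := ha B hB hPB
    have mB := hmx B hB (by
      refine le_trans ?_ hPB
      exact mul_le_mul_of_nonneg_right j3 (Pe_nonneg F.isLaw A))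
    have hB0 := mB.1
    have hq0 := (isLaw_cond F.isLaw hB0).nonneg
    have h2 := (mB.2.2 V₂ z₂ hz₂).2
    have h3 := CH_le_add hq0 (fun ω => a (slam F W ω)) z₂ (Gd F k W N₀ K zr)
    have h4 : CH (Pool.Agent.H49.Ent.cond F.p B True) z₂ (Gd F k W N₀ K zr) ≤
        CH (Pool.Agent.H49.Ent.cond F.p B True) z₂ zr :=
      CH_mono_cond hq0 fun ω ω' _ _ h => (Prod.ext_iff.mp (Prod.ext_iff.mp h).2).1
    have h5 : CH (Pool.Agent.H49.Ent.cond F.p B True) (fun ω => a (slam F W ω))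
        (fun ω => (z₂ ω, Gd F k W N₀ K zr ω)) ≤
        CH (Pool.Agent.H49.Ent.cond F.p B True) (fun ω => a (slam F ⌊w * J⌋₊ ω))
        (fun ω => (F.D ⌊(n - w) * J⌋₊ ω k, (z₂ ω, F.W ω))) := by
      rw [← hW]
      refine CH_mono_cond hq0 fun ω ω' _ _ h => ?_
      unfold Gd at h
      simp only [Prod.mk.injEq] at h ⊢
      obtain ⟨e1, e2, e3, e4, e5⟩ := h
      exact ⟨fl_coarse hw.w3 e2, e1, e4⟩
    exact ⟨hB0, by linarith⟩
  have hκJ : 0 ≤ κ * J := by positivity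
  have key := mev (k := k) hw hA hκJ hδ hδ1 (by
      have h1 := hT
      rw [← hW] at h1
      exact h1) hψ' hφ hφr hzz hXr hfr few (fun B hB hPB => by
        have h1 := hal B hB hPB
        have h2 : (ν - 2 * κ) * J = ν * J - 2 * (κ * J) := by ring
        linarith)
  have key2 := num_fin (κ := κ) hw hδ j4
  rw [hw.e1, hw.e0, hW] at key
  linarith

end Pool.MM97
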