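import Pool.Agent.H97.MM.Cls2

/-!
# Data of the line do not see the position: one event, the numbers
-/

set_option autoImplicit false

namespace Pool.MM97

open Finset Real
open Pool.Agent.H49.Ent Pool.Agent.H32.Dense Pool.STK Pool.OWN68 Pool.PR46 Pool.MM91 Pool.KA
open Pool.KSAT Pool.K2S Pool.PB Pool.GEN Pool.S6C Pool.LA91 Pool.RCD
open Pool.BFL (Pb)
open Pool.AVG71 (CH_pair_int)

variable {m : ℕ}

/-- Closed functions of an earlier window are closed functions of a later window. -/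
theorem cl2_late {J : ℕ} {F : Fam m J} {A : F.Ω → Prop} {W Wl : ℕ} (h : W ≤ Wl) (hl : Wl ≤ J)
    {V : Type} {z : F.Ω → V} (hz : Cl2 (ptr F J) (slam F W) A z) :
    Cl2 (ptr F J) (slam F Wl) A z := by
  obtain ⟨h1, ψ, hψ⟩ := hz
  refine ⟨h1, fun s => ψ (s.1, s.2.1, s.2.2 / 2 ^ (Wl - W)), fun ω hω => ?_⟩
  rw [hψ ω hω]
  congr 1
  have e : F.T ω / 2 ^ (J - Wl) / 2 ^ (Wl - W) = F.T ω / 2 ^ (J - W) := by
    rw [Nat.div_div_eq_div_mul, ← pow_add, show J - Wl + (Wl - W) = J - W by omega]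
  unfold slam Fam.T1
  simp only [e]

/-- **The windows.** -/
structure Wn (J : ℕ) (w n n' β : ℝ) (W N₀ K b : ℕ) : Prop where
  eW : W = ⌊w * J⌋₊
  e0 : N₀ = ⌊n * J⌋₊
  e1 : N₀ + K = ⌊n' * J⌋₊
  WN : W ≤ N₀
  WK : W + K ≤ J
  NJ : N₀ + K ≤ J
  bK : b ≤ K
  b1 : (b : ℝ) ≤ β * J + 1
  K0 : (n' - n) * J - 1 ≤ K
  K1 : (K : ℝ) ≤ (n' - n) * J + 1
  w1 : ⌊(n' - w) * J⌋₊ ≤ N₀ + K - W
  w2 : N₀ + K - W ≤ ⌊(n' - w) * J⌋₊ + 1
  w3 : ⌊(n - w) * J⌋₊ ≤ N₀ - W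
  w4 : N₀ - W ≤ ⌊(n - w) * J⌋₊ + 1
  w5 : ⌊(n - w + β) * J⌋₊ ≤ N₀ - W + b

theorem le_of_r {a b : ℕ} (h : (a : ℝ) < (b : ℝ) + 1) : a ≤ b :=
  Nat.lt_add_one_iff.1 (by exact_mod_cast h)

theorem wn_ex {w n n' β : ℝ} (hw0 : 0 ≤ w) (hwn : w ≤ n) (hβ : 0 < β) (hnn : n + β < n')
    (hn1 : n' ≤ 1) {J : ℕ} (j1 : 1 ≤ (1 - (w + (n' - n))) * J) (j2 : 2 ≤ (n' - n - β) * J) :
    ∃ W N₀ K b : ℕ, Wn J w n n' β W N₀ K b := by
  have hJ0 : (0 : ℝ) ≤ J := Nat.cast_nonneg J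
  have hn0 : 0 ≤ n := hw0.trans hwn
  have hn'0 : 0 ≤ n' := by linarith
  obtain ⟨x, hx⟩ : ∃ x : ℝ, x = w * J := ⟨_, rfl⟩
  obtain ⟨y, hy⟩ : ∃ x : ℝ, x = n * J := ⟨_, rfl⟩
  obtain ⟨y', hy'⟩ : ∃ x : ℝ, x = n' * J := ⟨_, rfl⟩
  obtain ⟨t, ht⟩ : ∃ x : ℝ, x = β * J := ⟨_, rfl⟩
  have x0 : 0 ≤ x := by rw [hx]; positivity
  have y0 : 0 ≤ y := by rw [hy]; positivity
  have y'0 : 0 ≤ y' := by rw [hy']; positivity
  have t0 : 0 ≤ t := by rw [ht]; positivity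
  have xy : x ≤ y := by rw [hx, hy]; exact mul_le_mul_of_nonneg_right hwn hJ0
  have yt : y + t + 2 ≤ y' := by
    rw [hy, hy', ht]
    linarith
  have y'J : y' ≤ J := by
    rw [hy']
    exact mul_le_of_le_one_left hJ0 hn1
  have k1 : x + (y' - y) + 1 ≤ J := by
    rw [hx, hy, hy']
    linarith
  have fW := Nat.floor_le x0
  have fW' := Nat.lt_floor_add_one x
  have fN₀ := Nat.floor_le y0
  have fN₀' := Nat.lt_floor_add_one y
  have fN₁ := Nat.floor_le y'0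
  have fN₁' := Nat.lt_floor_add_one y'
  have fb := Nat.floor_le t0
  have fb' := Nat.lt_floor_add_one t
  have e1 : (n' - w) * J = y' - x := by rw [hy', hx]; ring
  have e2 : (n - w) * J = y - x := by rw [hy, hx]; ring
  have e3 : (n - w + β) * J = y - x + t := by rw [hy, hx, ht]; ring
  have e4 : (n' - n) * J = y' - y := by rw [hy', hy]; ring
  have hWN : ⌊x⌋₊ ≤ ⌊y⌋₊ := Nat.floor_le_floor xy
  have hNN : ⌊y⌋₊ ≤ ⌊y'⌋₊ := Nat.floor_le_floor (by linarith)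
  have eK : ⌊y⌋₊ + (⌊y'⌋₊ - ⌊y⌋₊) = ⌊y'⌋₊ := by omega
  have eKr : ((⌊y'⌋₊ - ⌊y⌋₊ : ℕ) : ℝ) = ⌊y'⌋₊ - ⌊y⌋₊ := Nat.cast_sub hNN
  have c1 : ((⌊y⌋₊ + (⌊y'⌋₊ - ⌊y⌋₊) - ⌊x⌋₊ : ℕ) : ℝ) = ⌊y'⌋₊ - ⌊x⌋₊ := by
    rw [eK, Nat.cast_sub (hWN.trans hNN)]
  have c2 : ((⌊y⌋₊ - ⌊x⌋₊ : ℕ) : ℝ) = ⌊y⌋₊ - ⌊x⌋₊ := Nat.cast_sub hWN
  have f1 := Nat.floor_le (show 0 ≤ y' - x by linarith)
  have f1' := Nat.lt_floor_add_one (y' - x)
  have f2 := Nat.floor_le (show 0 ≤ y - x by linarith)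
  have f2' := Nat.lt_floor_add_one (y - x)
  have f3 := Nat.floor_le (show 0 ≤ y - x + t by linarith)
  refine ⟨⌊x⌋₊, ⌊y⌋₊, ⌊y'⌋₊ - ⌊y⌋₊, ⌊t⌋₊ + 1, ?_⟩
  constructor
  · rw [hx]
  · rw [hy]
  · rw [eK, hy']
  · exact hWN
  · have h1 : ((⌊x⌋₊ + (⌊y'⌋₊ - ⌊y⌋₊) : ℕ) : ℝ) ≤ J := by
      rw [Nat.cast_add, eKr]
      linarith
    exact_mod_cast h1
  · rw [eK]
    have h1 : ((⌊y'⌋₊ : ℕ) : ℝ) ≤ J := by linarith
    exact_mod_cast h1
  · have h1 : ((⌊t⌋₊ + 1 : ℕ) : ℝ) ≤ ((⌊y'⌋₊ - ⌊y⌋₊ : ℕ) : ℝ) := by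
      rw [eKr]
      push_cast
      linarith
    exact_mod_cast h1
  · push_cast
    rw [← ht]
    linarith
  · rw [e4, eKr]
    linarith
  · rw [e4, eKr]
    linarith
  · refine le_of_r ?_
    rw [e1, c1]
    linarith
  · refine le_of_r ?_
    rw [e1, c1]
    push_cast
    linarith
  · refine le_of_r ?_
    rw [e2, c2]
    linarith
  · refine le_of_r ?_
    rw [e2, c2]
    push_cast
    linarith
  · refine le_of_r ?_
    rw [e3, Nat.cast_add, c2]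
    push_cast
    linarith

/-- The size of the error. -/
theorem num_fin {J : ℕ} {w n n' β κ δ : ℝ} {W N₀ K b : ℕ} (h : Wn J w n n' β W N₀ K b)
    (hδ : 0 < δ) (j4 : 150 + 3 * δ ≤ 28 * κ * J) :
    ((n' - n - β - δ * (n' - n)) * Real.log 2 - 200 * κ) * J ≤
      K * Real.log 2 - (43 * (4 * (κ * J) + 2) + δ * Real.log (4 * 2 ^ K + 1) +
        Real.log (34 * (2 ^ K / 2 ^ (K - b)) + 1) + 51) := by
  have hl2 : 0 < Real.log 2 := Real.log_pos one_lt_two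
  have hl21 : Real.log 2 ≤ 1 := by
    have := Real.log_two_lt_d9
    linarith
  have hbK := h.bK
  have e1 : (2 : ℝ) ^ K / 2 ^ (K - b) = 2 ^ b := by
    rw [div_eq_iff (by positivity), ← pow_add]
    congr 1
    omega
  have e2 : Real.log (34 * (2 ^ K / 2 ^ (K - b)) + 1) ≤ 4 + (β * J + 1) * Real.log 2 := by
    rw [e1]
    have p1 : (1 : ℝ) ≤ 2 ^ b := one_le_pow₀ (by norm_num)
    have h1 : Real.log (34 * 2 ^ b + 1) ≤ Real.log (35 * 2 ^ b) :=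
      Real.log_le_log (by positivity) (by linarith)
    rw [Real.log_mul (by norm_num) (by positivity), Real.log_pow] at h1
    have h2 : Real.log 35 ≤ 4 := by
      have h3 : Real.log 35 ≤ Real.log (Real.exp 4) := by
        refine Real.log_le_log (by norm_num) ?_
        have h4 := Real.exp_one_gt_d9
        have h5 : Real.exp 4 = Real.exp 1 * Real.exp 1 * (Real.exp 1 * Real.exp 1) := by
          rw [← Real.exp_add, ← Real.exp_add]
          norm_num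
        rw [h5]
        have h6 : (7.38 : ℝ) ≤ Real.exp 1 * Real.exp 1 := by nlinarith
        nlinarith
      rwa [Real.log_exp] at h3
    have h8 := mul_le_mul_of_nonneg_right h.b1 hl2.le
    linarith
  have e3 : Real.log (4 * 2 ^ K + 1) ≤ 2 + ((n' - n) * J + 1) * Real.log 2 := by
    have p1 : (1 : ℝ) ≤ 2 ^ K := one_le_pow₀ (by norm_num)
    have h1 : Real.log (4 * 2 ^ K + 1) ≤ Real.log (5 * 2 ^ K) :=
      Real.log_le_log (by positivity) (by linarith)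
    rw [Real.log_mul (by norm_num) (by positivity), Real.log_pow] at h1
    have h2 : Real.log 5 ≤ 2 := by
      have h3 : Real.log 5 ≤ Real.log (Real.exp 2) := by
        refine Real.log_le_log (by norm_num) ?_
        have h4 := Real.exp_one_gt_d9
        have h5 : Real.exp 2 = Real.exp 1 * Real.exp 1 := by rw [← Real.exp_add]; norm_num
        rw [h5]
        nlinarith
      rwa [Real.log_exp] at h3
    have h8 := mul_le_mul_of_nonneg_right h.K1 hl2.le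
    linarith
  have e4 : δ * Real.log (4 * 2 ^ K + 1) ≤ δ * (2 + ((n' - n) * J + 1) * Real.log 2) :=
    mul_le_mul_of_nonneg_left e3 hδ.le
  have e5 := mul_le_mul_of_nonneg_right h.K0 hl2.le
  have e6 : δ * Real.log 2 ≤ δ := mul_le_of_le_one_right hδ.le hl21
  have e7 : ((n' - n - β - δ * (n' - n)) * Real.log 2 - 200 * κ) * J =
      (n' - n) * J * Real.log 2 - β * J * Real.log 2 - δ * ((n' - n) * J * Real.log 2) -
        200 * (κ * J) := by ring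
  have e8 : δ * (2 + ((n' - n) * J + 1) * Real.log 2) =
      2 * δ + δ * ((n' - n) * J * Real.log 2) + δ * Real.log 2 := by ring
  have e9 : ((n' - n) * J - 1) * Real.log 2 = (n' - n) * J * Real.log 2 - Real.log 2 := by ring
  have e10 : (β * J + 1) * Real.log 2 = β * J * Real.log 2 + Real.log 2 := by ring
  have e11 : 28 * κ * J = 28 * (κ * J) := by ring
  rw [e8] at e4
  rw [e9] at e5
  rw [e10] at e2
  rw [e11] at j4
  rw [e7]
  linarith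

/-- **One event.** -/
theorem mev {J : ℕ} {F : Fam m J} {A : F.Ω → Prop} {k : Fin m} {w n n' β δ e : ℝ}
    {W N₀ K b : ℕ} (h : Wn J w n n' β W N₀ K b) (hA : 0 < Pe F.p A) (he : 0 ≤ e) (hδ : 0 < δ)
    (hδ1 : δ ≤ 1)
    (hT : ((J : ℝ) - W) * Real.log 2 - e ≤ CH (Pool.Agent.H49.Ent.cond F.p A True) F.T (slam F W))
    {V Vl 𝒜 : Type} {z : F.Ω → V} {ψ : LnT F → V} {zr : F.Ω → Vl} {φ : PtT F → V}
    {φr : PtT F → Vl} {a : LnT F → 𝒜} (hψ : ∀ ω, A ω → z ω = ψ (slam F W ω))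
    (hφ : ∀ ω, A ω → z ω = φ (ptr F J ω)) (hφr : ∀ ω, A ω → zr ω = φr (ptr F J ω))
    (hzz : CH (Pool.Agent.H49.Ent.cond F.p A True) z zr ≤ e)
    (hX : CH (Pool.Agent.H49.Ent.cond F.p A True) (fun ω => F.X (N₀ + K) ω k)
      (fun ω => (zr ω, F.W ω)) ≤ 2 * e)
    (hfr : CH (Pool.Agent.H49.Ent.cond F.p A True) (fun ω => F.D ⌊(n' - w) * J⌋₊ ω k)
      (fun ω => (z ω, F.W ω)) ≤ CH (Pool.Agent.H49.Ent.cond F.p A True)
        (fun ω => F.D ⌊(n' - w) * J⌋₊ ω k) (fun ω => (zr ω, F.W ω)) + e)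
    (few : ∀ B : F.Ω → Prop, Sub B A → δ / 2 * Pe F.p A ≤ Pe F.p B → 0 < Pe F.p B ∧
      CH (Pool.Agent.H49.Ent.cond F.p B True) (fun ω => a (slam F W ω))
        (Gd F k W N₀ K zr) ≤ 2 * e)
    (hal : ∀ B : F.Ω → Prop, Sub B A → δ / 2 * Pe F.p A ≤ Pe F.p B →
      Real.log (6 / δ) + 2 * e + 6 ≤ CH (Pool.Agent.H49.Ent.cond F.p B True)
        (fun ω => F.D ⌊(n - w + β) * J⌋₊ ω k)
        (fun ω => (F.D ⌊(n - w) * J⌋₊ ω, (F.X J ω, F.W ω)))) :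
    K * Real.log 2 - (43 * (4 * e + 2) + δ * Real.log (4 * 2 ^ K + 1) +
      Real.log (34 * (2 ^ K / 2 ^ (K - b)) + 1) + 51) ≤
      CH (Pool.Agent.H49.Ent.cond F.p A True) (fun ω => F.X (N₀ + K) ω k)
        (fun ω => (F.X N₀ ω k, (F.D ⌊(n' - w) * J⌋₊ ω k, (a (slam F W ω), (z ω, F.W ω))))) := by
  have hp := isLaw_cond F.isLaw hA
  have hp0 := hp.nonneg
  have hWJ : W ≤ J := le_trans (Nat.le_add_right W K) h.WK
  have hsup : ∀ ω, 0 < Pool.Agent.H49.Ent.cond F.p A True ω → A ω := fun ω h => of_cond_pos h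
  have hfree := free_G (k := k) hp h.WN h.w1 h.w2 hzz hX hfr
  have zψ : ∀ ω, 0 < Pool.Agent.H49.Ent.cond F.p A True ω → z ω = ψ (slam F W ω) :=
    fun ω hω => hψ ω (hsup ω hω)
  have swap1 : CH (Pool.Agent.H49.Ent.cond F.p A True) (fun ω => F.D (N₀ + K - W) ω k)
      (fun ω => (F.D (N₀ - W) ω k, (ψ (slam F W ω), F.W ω))) ≤
      CH (Pool.Agent.H49.Ent.cond F.p A True) (fun ω => F.D (N₀ + K - W) ω k)
      (fun ω => (F.D (N₀ - W) ω k, (z ω, F.W ω))) := by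
    refine CH_mono_cond hp0 fun ω ω' hω hω' h => ?_
    simp only [Prod.mk.injEq] at h ⊢
    rw [zψ ω hω, zψ ω' hω']
    exact h
  have hzψ : CH (Pool.Agent.H49.Ent.cond F.p A True) (fun ω => ψ (slam F W ω))
      (Gd F k W N₀ K zr) ≤ 4 * e + 2 := by
    have h1 : CH (Pool.Agent.H49.Ent.cond F.p A True) (fun ω => ψ (slam F W ω))
        (Gd F k W N₀ K zr) ≤ CH (Pool.Agent.H49.Ent.cond F.p A True) z (Gd F k W N₀ K zr) := by
      refine CH_mono_left hp0 fun ω ω' hω hω' h => ?_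
      have h2 : z ω = z ω' := (Prod.ext_iff.mp h).1
      rw [zψ ω hω, zψ ω' hω'] at h2
      exact h2
    have h3 : CH (Pool.Agent.H49.Ent.cond F.p A True) z (Gd F k W N₀ K zr) ≤
        CH (Pool.Agent.H49.Ent.cond F.p A True) z zr :=
      CH_mono_cond hp0 fun ω ω' _ _ h => (Prod.ext_iff.mp (Prod.ext_iff.mp h).2).1
    linarith
  have hPe1 : ∀ E₀ : F.Ω → Prop, Pe (Pool.Agent.H49.Ent.cond F.p A True) E₀ =
      Pe F.p (fun ω => A ω ∧ E₀ ω) / Pe F.p A := fun E₀ => Pe_cond E₀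
  have hE₀' : ∀ E₀ : F.Ω → Prop, δ / 2 ≤ law (Pool.Agent.H49.Ent.cond F.p A True) E₀ True →
      δ / 2 * Pe F.p A ≤ Pe F.p (fun ω => A ω ∧ E₀ ω) := fun E₀ hE₀ => by
    have hE₁ : δ / 2 ≤ Pe (Pool.Agent.H49.Ent.cond F.p A True) E₀ := hE₀
    rwa [hPe1, le_div_iff₀ hA] at hE₁
  have hal' : Pb (glue (Pool.Agent.H49.Ent.cond F.p A True) (Pool.Agent.H49.Ent.cond F.p A True)
      (fun ω => (a (slam F W ω), (Gd F k W N₀ K zr ω, Cn F k W N₀ (N₀ - W) ψ (slam F W ω))))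
      (fun ω => (a (slam F W ω), (Gd F k W N₀ K zr ω, Cn F k W N₀ (N₀ - W) ψ (slam F W ω)))))
      (fun v => |(El F k (N₀ + K - W) (slam F W v.2) : ℝ) -
        El F k (N₀ + K - W) (slam F W v.1)| < 2 ^ (K - b)) ≤ δ := by
    refine hal_of hp (slam F W)
      (fun ω => (Gd F k W N₀ K zr ω, Cn F k W N₀ (N₀ - W) ψ (slam F W ω))) a
      (El F k (N₀ + K - W)) (e₁ := 2 * e) (by positivity) hδ ?_ ?_
    · intro E₀ hE₀
      rw [cond_andM F.p hA.ne']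
      obtain ⟨hB0, h1⟩ := few (fun ω => A ω ∧ E₀ ω) (fun ω h => h.1) (hE₀' E₀ hE₀)
      refine le_trans ?_ h1
      exact CH_mono_cond (isLaw_cond F.isLaw hB0).nonneg fun ω ω' _ _ h => (Prod.ext_iff.mp h).1
    · intro E₀ hE₀
      rw [cond_andM F.p hA.ne']
      obtain ⟨hB0, -⟩ := few (fun ω => A ω ∧ E₀ ω) (fun ω h => h.1) (hE₀' E₀ hE₀)
      have h1 := hal (fun ω => A ω ∧ E₀ ω) (fun ω h => h.1) (hE₀' E₀ hE₀)
      have h2 := alive_G (k := k) (zl := ψ) (zr := zr) (φ := φ) (φr := φr)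
        (isLaw_cond F.isLaw hB0) h.WN hWJ h.NJ h.bK h.w3 h.w4 h.w5
        (fun ω hω => by rw [← hψ ω hω.1]; exact hφ ω hω.1) (fun ω hω => hφr ω hω.1) le_rfl
      linarith
  have fin := mfam (k := k) hp h.WN h.WK ψ a (Gd F k W N₀ K zr)
    (fun ω ω' _ _ h => by
      unfold Gd at h
      simp only [Prod.mk.injEq] at h
      exact h.2.2.1)
    (fun ω ω' _ _ h => by
      unfold Gd at h
      simp only [Prod.mk.injEq] at h
      exact h.2.2.2) (e := 4 * e + 2) (by linarith) hzψ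
    (by
      have h1 := (few A (fun _ h => h) (by
        have := Pe_nonneg F.isLaw A
        nlinarith)).2
      linarith)
    (by linarith) (B := 2 ^ (K - b)) (δ := δ) (by positivity) hal'
  refine fin.trans (CH_mono_cond hp0 fun ω ω' hω hω' hh => ?_)
  simp only [Prod.mk.injEq] at hh ⊢
  obtain ⟨h1, h2, h3, h4, h5⟩ := hh
  refine ⟨h1, fl_coarse h.w1 h2, h3, ?_, h5⟩
  rw [zψ ω hω, zψ ω' hω']
  exact h4

end Pool.MM97
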