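import Pool.Agent.H64.CHN.Ent

/-!
# Two hops over the base (lemma (M)): definitions and small lemmas

`Mh`: a law of samples (a line and a time `T`) with a record `G` of the ball at the time `T`, the
positions `P` at the time `0`, the velocities `E` (`k` coordinates, `N` digits), further velocities
`D` which are near given the record and the top `n` digits of `E`, and the velocities behind `n`
are full given the record. Conclusion (file `Main`): the digits `(n, N]` of the positions are full
given `D`, `E`, the top digits of the positions and the window.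
-/

set_option autoImplicit false

namespace Pool.MM

open Finset Real
open Pool.Agent.H49.Ent Pool.Agent.H32.Dense Pool.STK Pool.POT Pool.TQ
open Pool.K2S (Pe)
open Pool.LPX (tp)
open Pool.CHN (Qn Qc lk Tn pt)

variable {Ω γ Λ ζ : Type} {k j : ℕ}

/-- The top `n` digits of a vector. -/
def tv (N n : ℕ) (E : Fin k → Ω → ℤ) (ω : Ω) (i : Fin k) : ℤ := tp N n (E i ω)

/-- A vector as one variable. -/
def vc (E : Fin k → Ω → ℤ) (ω : Ω) (i : Fin k) : ℤ := E i ω

/-- The hypotheses of (M). -/
structure Mh (p : Ω → ℝ) [Fintype Ω] (G : Ω → γ) (ln : Ω → Λ) (W : Ω → ζ) (T : Ω → ℤ)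
    (P E : Fin k → Ω → ℤ) (D : Fin j → Ω → ℤ) (N n : ℕ) (C K d : ℝ) : Prop where
  law : IsLaw p
  t0 : ∀ ω, 0 < p ω → 0 ≤ T ω ∧ T ω < 2 ^ N
  GT : Det p G T
  GW : Det p G W
  lW : Det p ln W
  lP : ∀ i, Det p ln (P i)
  lE : ∀ i, Det p ln (E i)
  lD : ∀ i, Det p ln (D i)
  tf : N * Real.log 2 - d ≤ CH p T ln
  pos : ∀ i, ∀ ω ω', 0 < p ω → 0 < p ω' → G ω = G ω' →
    |((P i ω : ℝ) + T ω * (E i ω / 2 ^ N)) - (P i ω' + T ω' * (E i ω' / 2 ^ N))| ≤ C
  near : ∀ i, ∀ ω ω', 0 < p ω → 0 < p ω' → G ω = G ω' → tv N n E ω = tv N n E ω' →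
    |(D i ω : ℝ) - D i ω'| ≤ K
  free : k * (((N : ℝ) - n) * Real.log 2) - d ≤ CH p (vc E) (fun ω => (G ω, tv N n E ω))

/-- The entropy of a vector. -/
theorem CH_vec {Γ τ : Type} [Fintype Γ] {q : Γ → ℝ} (hq : ∀ w, 0 ≤ q w) (W : Γ → τ) {b : ℝ} :
    ∀ (k : ℕ) (V : Fin k → Γ → ℤ), (∀ i, CH q (V i) W ≤ b) → CH q (vc V) W ≤ k * b
  | 0, V, _ => by
    rw [CH_eq_zero hq]
    · simp
    · intro w w' _ _ _
      funext i
      exact i.elim0
  | k + 1, V, h => by
    have ih := CH_vec hq W k (fun i => V i.castSucc) fun i => h _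
    have h1 : CH q (vc V) W ≤ CH q (fun w => (V (Fin.last k) w, vc (fun i => V i.castSucc) w)) W := by
      refine CH_mono_left hq ?_
      intro w w' _ _ e
      simp only [Prod.mk.injEq] at e
      funext i
      refine Fin.lastCases ?_ (fun i => ?_) i
      · exact e.1.1
      · exact congrFun e.1.2 i
    have h2 := CH_subadd hq (V (Fin.last k)) (vc fun i => V i.castSucc) W
    have h3 := h (Fin.last k)
    push_cast
    linarith

theorem CH_vec_few {Γ τ : Type} [Fintype Γ] {q : Γ → ℝ} (hq : IsLaw q) (W : Γ → τ) {L : ℝ}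
    {k : ℕ} (V : Fin k → Γ → ℤ) (h : ∀ i w w', 0 < q w → 0 < q w' → W w = W w' →
      |((V i w - V i w' : ℤ) : ℝ)| ≤ L) : CH q (vc V) W ≤ k * Real.log (2 * L + 1) :=
  CH_vec hq.nonneg W k V fun i => Pool.LPX.CH_few hq (V i) W (h i)

/-- The low digits. -/
theorem CH_low {Γ τ : Type} [Fintype Γ] {q : Γ → ℝ} (hq : IsLaw q) (W : Γ → τ) {N n : ℕ}
    (V : Γ → ℤ) (h : ∀ w w', 0 < q w → 0 < q w' → W w = W w' → tp N n (V w) = tp N n (V w')) :
    CH q V W ≤ (N - n : ℕ) * Real.log 2 := by
  have h0 : CH q V W ≤ CH q (fun w => (tp N n (V w), V w)) W := by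
    refine CH_mono_left hq.nonneg ?_
    intro w w' _ _ e
    simp only [Prod.mk.injEq] at e
    exact e.1.2
  have h1 := CH_le_add hq.nonneg V (fun w => tp N n (V w)) W
  have h2 : CH q (fun w => tp N n (V w)) W = 0 := CH_eq_zero hq.nonneg fun w w' a b e => h w w' a b e
  have h3 : CH q V (fun w => (tp N n (V w), W w)) ≤ (N - n : ℕ) * Real.log 2 := by
    have := CH_le_card hq.nonneg hq.sum_one V (fun w => (tp N n (V w), W w))
      (fun w => Finset.Ico (w.1 * 2 ^ (N - n)) (w.1 * 2 ^ (N - n) + 2 ^ (N - n))) (by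
        intro ω _
        simp only [Finset.mem_Ico]
        have hz : (0 : ℤ) < 2 ^ (N - n) := by positivity
        have e1 := Int.ediv_mul_le (V ω) hz.ne'
        have e2 := Int.lt_ediv_add_one_mul_self (V ω) hz
        constructor
        · exact e1
        · have : tp N n (V ω) = V ω / 2 ^ (N - n) := rfl
          rw [this]
          linarith)
    refine this.trans ?_
    have h3 : ∀ ω, Real.log (((Finset.Ico (tp N n (V ω) * 2 ^ (N - n))
        (tp N n (V ω) * 2 ^ (N - n) + 2 ^ (N - n))).card : ℕ) : ℝ) = (N - n : ℕ) * Real.log 2 := by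
      intro ω
      rw [Int.card_Ico]
      have : (tp N n (V ω) * 2 ^ (N - n) + 2 ^ (N - n) - tp N n (V ω) * 2 ^ (N - n)).toNat =
          2 ^ (N - n) := by
        rw [add_sub_cancel_left]
        have : ((2 : ℤ) ^ (N - n)) = ((2 ^ (N - n) : ℕ) : ℤ) := by push_cast; rfl
        rw [this, Int.toNat_natCast]
      rw [this]
      push_cast
      rw [Real.log_pow]
    simp only [h3]
    rw [Ex_const hq.sum_one]
  linarith

/-- An indicator costs at most one bit. -/
theorem CH_ind {Γ τ : Type} [Fintype Γ] {q : Γ → ℝ} (hq : IsLaw q) (G : Γ → Prop) (W : Γ → τ) :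
    CH q G W ≤ Real.log 2 := by
  classical
  have h1 := CH_le_card hq.nonneg hq.sum_one G W (fun _ => (Finset.univ : Finset Prop))
    (fun _ _ => Finset.mem_univ _)
  refine h1.trans (le_of_eq ?_)
  have e : (fun _ : Γ => Real.log (((Finset.univ : Finset Prop).card : ℕ) : ℝ)) =
      fun _ => Real.log 2 := by
    funext w
    rw [Finset.card_univ, Fintype.card_prop]
    norm_num
  rw [e, Ex_const hq.sum_one]

/-- A nearly full time is seldom near a known one. -/
theorem time_near {Γ τ : Type} [Fintype Γ] {q : Γ → ℝ} (hq : IsLaw q) (W : Γ → τ) {N m : ℕ}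
    (T T' : Γ → ℤ) (hT' : Det q W T') (ht : ∀ w, 0 < q w → 0 ≤ T w ∧ T w < 2 ^ N) {d : ℝ}
    (full : N * Real.log 2 - d ≤ CH q T W) (hm : m ≤ N) :
    Pe q (fun w => |(T w : ℝ) - T' w| < 2 ^ (N - m)) * (((m : ℝ) - 3) * Real.log 2) ≤
      d + Real.log 2 := by
  classical
  obtain ⟨G, hG⟩ : ∃ G : Γ → Prop, G = fun w => |(T w : ℝ) - T' w| < 2 ^ (N - m) := ⟨_, rfl⟩
  rw [← hG]
  have hqn := hq.nonneg
  have h1 := CH_le_add hqn T G W
  have h2 := CH_ind hq G W
  have h3 : CH q T (fun w => (G w, W w)) ≤ Pe q G * (((N : ℝ) - m + 3) * Real.log 2) +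
      (1 - Pe q G) * (N * Real.log 2) := by
    rw [CH_ev hqn (G := G) T (fun w => (G w, W w)) (fun w w' _ _ e => (Prod.ext_iff.mp e).1)]
    have e1 := law_ev hq G
    have e2 : Pe q G = law q G True := rfl
    have e3 : law q G False = 1 - Pe q G := by rw [e2]; linarith
    rw [e3, e2]
    refine add_le_add ?_ ?_
    · rcases (law_nonneg hqn G True).eq_or_lt with e | e
      · rw [← e, zero_mul, zero_mul]
      · have hl : IsLaw (cond q G True) := ⟨cond_nonneg hqn _ _, sum_cond _ _ e.ne'⟩
        refine mul_le_mul_of_nonneg_left ?_ e.le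
        have h4 := Pool.LPX.CH_few hl T (fun w => (G w, W w)) (L := 2 * 2 ^ (N - m)) (by
          intro w w' a b e'
          obtain ⟨a1, a2⟩ := (cond_pos_iff hqn G True w).1 a
          obtain ⟨b1, b2⟩ := (cond_pos_iff hqn G True w').1 b
          have a3 : |(T w : ℝ) - T' w| < 2 ^ (N - m) := by
            rw [hG] at a2
            exact of_eq_true a2
          have b3 : |(T w' : ℝ) - T' w'| < 2 ^ (N - m) := by
            rw [hG] at b2
            exact of_eq_true b2
          rw [← hT' w w' a1 b1 (Prod.ext_iff.mp e').2] at b3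
          have x1 := abs_lt.1 a3
          have x2 := abs_lt.1 b3
          push_cast
          rw [abs_le]
          constructor <;> linarith [x1.1, x1.2, x2.1, x2.2])
        refine h4.trans ?_
        have h5 : (1 : ℝ) ≤ 2 ^ (N - m) := one_le_pow₀ (by norm_num)
        have h6 : Real.log (2 * (2 * 2 ^ (N - m)) + 1) ≤ Real.log (2 ^ (N - m) * 2 ^ 3) :=
          Real.log_le_log (by positivity) (by nlinarith)
        rw [← pow_add, Real.log_pow] at h6
        push_cast at h6
        rw [Nat.cast_sub hm] at h6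
        exact h6
    · rcases (law_nonneg hqn G False).eq_or_lt with e | e
      · have e4 : 1 - law q G True = 0 := by linarith
        rw [e4, zero_mul, zero_mul]
      · have hl : IsLaw (cond q G False) := ⟨cond_nonneg hqn _ _, sum_cond _ _ e.ne'⟩
        have e4 : 1 - law q G True = law q G False := by linarith
        refine mul_le_mul_of_nonneg_left ?_ (by rw [e4]; exact e.le)
        exact Pool.LPX.time_le hl T _ fun w hw => ht w ((cond_pos_iff hqn G False w).1 hw).1
  nlinarith

end Pool.MM
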