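import Pool.Agent.H97.MM.Main

/-!
# Lemma (M) with small errors
-/

set_option autoImplicit false

namespace Pool.MM

open Finset Real
open Pool.Agent.H49.Ent Pool.Agent.H32.Dense Pool.STK Pool.POT Pool.TQ
open Pool.LPX (tp)

/-- **Lemma (M)**, the digits of the positions are full. -/
theorem hop_eps (k j : ℕ) (C ε : ℝ) (hC : 0 ≤ C) (hε : 0 < ε) : ∃ κ : ℝ, 0 < κ ∧ ∃ N₀ : ℕ,
    ∀ {Ω γ Λ ζ : Type} [Fintype Ω] {p : Ω → ℝ} {G : Ω → γ} {ln : Ω → Λ} {W : Ω → ζ} {T : Ω → ℤ}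
    {P E : Fin k → Ω → ℤ} {D : Fin j → Ω → ℤ} {N n : ℕ} {K d : ℝ},
    Mh p G ln W T P E D N n C K d → N₀ ≤ N → n ≤ N → 0 ≤ d → d ≤ κ * N → 0 ≤ K →
    K ≤ (2 : ℝ) ^ (κ * N) →
    k * (((N : ℝ) - n) * Real.log 2) - ε * N ≤
      CH p (vc P) (fun ω => (tv N n P ω, (vc E ω, (vc D ω, W ω)))) ∧
    MI p (vc P) (vc D) (fun ω => (tv N n P ω, (vc E ω, W ω))) ≤ ε * N := by
  have hl2 : 0 < Real.log 2 := Real.log_pos (by norm_num)
  have hl2' : Real.log 2 ≤ 1 := by
    have := Real.log_le_sub_one_of_pos (by norm_num : (0 : ℝ) < 2)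
    linarith
  have hl2'' : (1 : ℝ) / 2 ≤ Real.log 2 := by
    have := Real.one_sub_inv_le_log_of_pos (by norm_num : (0 : ℝ) < 2)
    norm_num at this ⊢
    linarith
  obtain ⟨a, ha⟩ : ∃ a : ℝ, a = min (ε / (8 * (k + 1))) 1 := ⟨_, rfl⟩
  have ha0 : 0 < a := by
    rw [ha]
    exact lt_min (by positivity) one_pos
  have ha1 : a ≤ 1 := by rw [ha]; exact min_le_right _ _
  have hak : k * a ≤ ε / 8 := by
    have h1 : a ≤ ε / (8 * (k + 1)) := by rw [ha]; exact min_le_left _ _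
    calc (k : ℝ) * a ≤ (k + 1) * (ε / (8 * (k + 1))) :=
          mul_le_mul (by linarith) h1 ha0.le (by positivity)
      _ = ε / 8 := by field_simp
  obtain ⟨κ, hκ⟩ : ∃ κ : ℝ, κ = min (ε / 24) (min (ε / (8 * (j + 1))) (ε * a / (64 * (k + 1)))) :=
    ⟨_, rfl⟩
  have hκ0 : 0 < κ := by
    rw [hκ]
    exact lt_min (by positivity) (lt_min (by positivity) (by positivity))
  have hκ1 : 3 * κ ≤ ε / 8 := by
    have : κ ≤ ε / 24 := by rw [hκ]; exact min_le_left _ _
    linarith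
  have hκ2 : j * κ ≤ ε / 8 := by
    have h1 : κ ≤ ε / (8 * (j + 1)) := by
      rw [hκ]
      exact (min_le_right _ _).trans (min_le_left _ _)
    calc (j : ℝ) * κ ≤ (j + 1) * (ε / (8 * (j + 1))) :=
          mul_le_mul (by linarith) h1 hκ0.le (by positivity)
      _ = ε / 8 := by field_simp
  have hκ3 : k * κ ≤ ε * a / 64 := by
    have h1 : κ ≤ ε * a / (64 * (k + 1)) := by
      rw [hκ]
      exact (min_le_right _ _).trans (min_le_right _ _)
    calc (k : ℝ) * κ ≤ (k + 1) * (ε * a / (64 * (k + 1))) :=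
          mul_le_mul (by linarith) h1 hκ0.le (by positivity)
      _ = ε * a / 64 := by field_simp
  obtain ⟨c0, hc0⟩ : ∃ c0 : ℝ, c0 = k * Real.log (8 * C + 1) + k * Real.log (8 * C + 5) +
    j * Real.log 9 + 8 * k / a := ⟨_, rfl⟩
  refine ⟨κ, hκ0, max ⌈16 / a⌉₊ ⌈8 * c0 / ε⌉₊, ?_⟩
  intro Ω γ Λ ζ _ p G ln W T P E D N n K d H hN hnN hd hdκ hK hKκ
  have hN1 : 16 / a ≤ N := by
    have h1 : ⌈16 / a⌉₊ ≤ N := (le_max_left _ _).trans hN
    exact (Nat.le_ceil _).trans (by exact_mod_cast h1)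
  have hN2 : 8 * c0 / ε ≤ N := by
    have h1 : ⌈8 * c0 / ε⌉₊ ≤ N := (le_max_right _ _).trans hN
    exact (Nat.le_ceil _).trans (by exact_mod_cast h1)
  have hNr : (0 : ℝ) ≤ N := Nat.cast_nonneg N
  have haN : 16 ≤ a * N := by
    rw [div_le_iff₀ ha0] at hN1
    linarith
  have hNpos : (0 : ℝ) < N := by
    by_contra hcon
    have : (N : ℝ) = 0 := le_antisymm (not_lt.1 hcon) hNr
    rw [this, mul_zero] at haN
    linarith
  obtain ⟨m, hm⟩ : ∃ m, m = ⌊a * (N : ℝ)⌋₊ := ⟨_, rfl⟩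
  have hm1 : (m : ℝ) ≤ a * N := by
    rw [hm]
    exact Nat.floor_le (by positivity)
  have hm2 : a * N - 1 ≤ m := by
    have := Nat.lt_floor_add_one (a * (N : ℝ))
    rw [hm]
    linarith
  have hmN : m ≤ N := by
    have : (m : ℝ) ≤ N := hm1.trans (mul_le_of_le_one_left hNr ha1)
    exact_mod_cast this
  have hm3 : 3 < m := by
    have : (3 : ℝ) < m := by linarith
    exact_mod_cast this
  have hm4 : a * N / 2 ≤ (m : ℝ) - 3 := by linarith
  obtain ⟨ϖ, hϖ⟩ : ∃ ϖ : ℝ, ϖ = (κ * N + 1) * (4 / (a * N)) := ⟨_, rfl⟩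
  have hϖ0 : 0 ≤ ϖ := by
    rw [hϖ]
    positivity
  have hϖ1 : d + Real.log 2 ≤ ϖ * (((m : ℝ) - 3) * Real.log 2) := by
    have h1 : κ * N + 1 ≤ ϖ * (((m : ℝ) - 3) * Real.log 2) := by
      have h2 : a * N / 4 ≤ ((m : ℝ) - 3) * Real.log 2 := by
        have h3 : a * N / 2 * (1 / 2) ≤ ((m : ℝ) - 3) * Real.log 2 :=
          mul_le_mul hm4 hl2'' (by norm_num) (by linarith)
        linarith
      have h3 := mul_le_mul_of_nonneg_left h2 hϖ0
      have h4 : ϖ * (a * N / 4) = κ * N + 1 := by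
        rw [hϖ]
        field_simp
      linarith
    linarith
  have key := hop H hC hnN hmN hm3 hϖ1
  -- the numbers
  have hD0 : (0 : ℝ) ≤ (N : ℝ) - n := by
    have : (n : ℝ) ≤ N := by exact_mod_cast hnN
    linarith
  have hDN : (N : ℝ) - n ≤ N := by
    have : (0 : ℝ) ≤ n := Nat.cast_nonneg n
    linarith
  have n1 : ϖ * (k * (((N : ℝ) - n) * Real.log 2)) ≤ ε / 16 * N + 4 * k / a := by
    have h1 : k * (((N : ℝ) - n) * Real.log 2) ≤ k * N := by
      refine mul_le_mul_of_nonneg_left ?_ (Nat.cast_nonneg k)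
      calc ((N : ℝ) - n) * Real.log 2 ≤ N * 1 := mul_le_mul hDN hl2' hl2.le hNr
        _ = N := mul_one _
    have h2 := mul_le_mul_of_nonneg_left h1 hϖ0
    have h3 : ϖ * (k * N) = 4 / a * (k * κ) * N + 4 * k / a := by
      rw [hϖ]
      field_simp
    have h4 : 4 / a * (k * κ) ≤ ε / 16 := by
      have h5 : 4 / a * (k * κ) ≤ 4 / a * (ε * a / 64) :=
        mul_le_mul_of_nonneg_left hκ3 (by positivity)
      have h6 : 4 / a * (ε * a / 64) = ε / 16 := by
        field_simp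
        norm_num
      linarith
    have h7 := mul_le_mul_of_nonneg_right h4 hNr
    linarith
  have n2 : k * Real.log (8 * C * 2 ^ m + 1) ≤ ε / 8 * N + k * Real.log (8 * C + 1) := by
    have h1 : Real.log (8 * C * 2 ^ m + 1) ≤ Real.log (8 * C + 1) + m * Real.log 2 := by
      rw [← Real.log_pow, ← Real.log_mul (by positivity) (by positivity)]
      refine Real.log_le_log (by positivity) ?_
      have : (1 : ℝ) ≤ 2 ^ m := one_le_pow₀ (by norm_num)
      nlinarith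
    have h2 : (m : ℝ) * Real.log 2 ≤ a * N := by
      calc (m : ℝ) * Real.log 2 ≤ (a * N) * 1 := mul_le_mul hm1 hl2' hl2.le (by positivity)
        _ = a * N := mul_one _
    have h3 := mul_le_mul_of_nonneg_left (h1.trans (add_le_add_right h2 _))
      (Nat.cast_nonneg k : (0 : ℝ) ≤ k)
    have h4 : (k : ℝ) * (a * N) ≤ ε / 8 * N := by
      rw [← mul_assoc]
      exact mul_le_mul_of_nonneg_right hak hNr
    nlinarith
  have n3 : j * Real.log (8 * K + 1) ≤ ε / 8 * N + j * Real.log 9 := by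
    have h1 : Real.log (8 * K + 1) ≤ Real.log 9 + κ * N := by
      have h2 : 8 * K + 1 ≤ 9 * (2 : ℝ) ^ (κ * N) := by
        have : (1 : ℝ) ≤ (2 : ℝ) ^ (κ * N) := Real.one_le_rpow (by norm_num) (by positivity)
        linarith
      have h3 := Real.log_le_log (by positivity) h2
      rw [Real.log_mul (by norm_num) (by positivity), Real.log_rpow (by norm_num)] at h3
      have h4 : κ * N * Real.log 2 ≤ κ * N := mul_le_of_le_one_right (by positivity) hl2'
      linarith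
    have h3 := mul_le_mul_of_nonneg_left h1 (Nat.cast_nonneg j : (0 : ℝ) ≤ j)
    have h4 := mul_le_mul_of_nonneg_right hκ2 hNr
    nlinarith
  have n4 : 3 * d ≤ ε / 8 * N := by
    have h1 := mul_le_mul_of_nonneg_right hκ1 hNr
    linarith
  have n5 : c0 ≤ ε / 8 * N := by
    rw [div_le_iff₀ hε] at hN2
    linarith
  have n6 : 4 * k / a ≤ 8 * k / a := by
    have : (0 : ℝ) ≤ k / a := by positivity
    have e1 : 4 * k / a = 4 * (k / a) := by ring
    have e2 : 8 * k / a = 8 * (k / a) := by ring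
    rw [e1, e2]
    linarith
  have hfin : k * (((N : ℝ) - n) * Real.log 2) - ε * N ≤
      CH p (vc P) (fun ω => (tv N n P ω, (vc E ω, (vc D ω, W ω)))) := by
    have : 0 ≤ ε * N := by positivity
    rw [hc0] at n5
    linarith
  refine ⟨hfin, ?_⟩
  unfold MI
  have hup : CH p (vc P) (fun ω => (tv N n P ω, (vc E ω, W ω))) ≤
      k * (((N : ℝ) - n) * Real.log 2) := by
    have h1 := CH_vec H.law.nonneg (fun ω => (tv N n P ω, (vc E ω, W ω)))
      (b := (N - n : ℕ) * Real.log 2) k P fun i => CH_low H.law _ _ fun w w' _ _ e =>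
        congrFun (Prod.ext_iff.mp e).1 i
    rw [Nat.cast_sub hnN] at h1
    exact h1
  have hlo : CH p (vc P) (fun ω => (tv N n P ω, (vc E ω, (vc D ω, W ω)))) ≤
      CH p (vc P) (fun ω => (vc D ω, (tv N n P ω, (vc E ω, W ω)))) := by
    refine CH_mono_cond H.law.nonneg ?_
    intro w w' _ _ e
    simp only [Prod.mk.injEq] at e ⊢
    exact ⟨e.2.2.1, e.1, e.2.1, e.2.2.2⟩
  have hlo' := hfin.trans hlo
  linarith

end Pool.MM
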