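import Pool.Agent.H91.MM.Alp
import Pool.Agent.H7.KSAT.SL
import Pool.Agent.H71.GEN.Defs
import Pool.Agent.H71.AVG.Law

/-!
# Data of the line do not see the position: one coordinate of a family

`posE`: `M1H.m1` for the position at the time of the sample. `mfam`: in a family, for one coordinate
`k`: the digits `n, …, n + K` of the position at the time are full given the time, the record `zw` of
the window `w`, the velocity to `n + K - w` digits and a datum `A` of the line with its window which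
is few given the record `G` of the point; inputs: the time is full given the line, the velocity is
free of `G`, two copies over `G` have different velocities.
-/

set_option autoImplicit false

namespace Pool.MM97

open Finset Real
open Pool.Agent.H49.Ent Pool.Agent.H32.Dense Pool.STK Pool.OWN68 Pool.PR46 Pool.MM91 Pool.KA
open Pool.KSAT Pool.K2S Pool.PB Pool.GEN
open Pool.BFL (Pb)
open Pool.AVG71 (CH_pair_int)

/-- **The position at the time is full** given the velocity, the time, `A` and `C`. -/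
theorem posE {Ω Λ Γ 𝒞 𝒜 : Type} [Fintype Ω] {p : Ω → ℝ} {M K : ℕ} {e F : ℝ} {L : Ω → Λ}
    {t : Ω → ℤ} {G : Ω → Γ} {C : Λ → 𝒞} {A : Λ → 𝒜} {X E : Λ → ℤ} (hp : IsLaw p) (hM : 1 ≤ M)
    (H : M1H p M K e F L t G C A X E) {B δ : ℝ} (hB : 0 < B)
    (hal : Pb (glue p p (fun ω => (A (L ω), G ω)) (fun ω => (A (L ω), G ω)))
      (fun w => |(E (L w.2) : ℝ) - E (L w.1)| < B) ≤ δ) :
    Real.log (2 * M + 1) - (14 * e + δ * Real.log (4 * M + 1) +
      Real.log (2 * ((4 * K + 1) * M / B) + 1) + Real.log (2 * K + 3)) ≤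
    CH p (fun ω => y1 M X E (L ω) (t ω)) (fun ω => (E (L ω), (t ω, (A (L ω), C (L ω))))) := by
  have h0 := hp.nonneg
  have h1 := H.pos hp hM hB hal
  have h2 := mi_sym h0 (fun ω => y1 M X E (L ω) (t ω)) (fun ω => E (L ω))
    (fun ω => (t ω, (A (L ω), C (L ω))))
  have h3 : CH p (fun ω => E (L ω)) (fun ω => (t ω, (A (L ω), C (L ω)))) ≤ F :=
    (CH_mono_cond h0 fun ω ω' _ _ hz => (Prod.ext_iff.mp (Prod.ext_iff.mp hz).2).2).trans H.free1
  have h4 : CH p (fun ω => E (L ω)) (fun ω => (y1 M X E (L ω) (t ω), (A (L ω), G ω))) ≤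
      CH p (fun ω => E (L ω)) (fun ω => (y1 M X E (L ω) (t ω), (t ω, (A (L ω), C (L ω))))) := by
    refine CH_mono_cond h0 fun ω ω' hω hω' hz => ?_
    have z1 : y1 M X E (L ω) (t ω) = y1 M X E (L ω') (t ω') := (Prod.ext_iff.mp hz).1
    have z2 : A (L ω) = A (L ω') := (Prod.ext_iff.mp (Prod.ext_iff.mp hz).2).1
    have z3 : G ω = G ω' := (Prod.ext_iff.mp (Prod.ext_iff.mp hz).2).2
    obtain ⟨z4, z5, -⟩ := H.gt ω ω' hω hω' z3
    show (y1 M X E (L ω) (t ω), (t ω, (A (L ω), C (L ω)))) =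
      (y1 M X E (L ω') (t ω'), (t ω', (A (L ω'), C (L ω'))))
    rw [z1, z2, z4, z5]
  have h5 := CH_cond_add h0 (fun ω => E (L ω)) (fun ω => y1 M X E (L ω) (t ω))
    (fun ω => (A (L ω), G ω))
  have h6 : CH p (fun ω => y1 M X E (L ω) (t ω)) (fun ω => (A (L ω), G ω)) ≤
      Real.log (2 * K + 3) :=
    (CH_mono_cond h0 fun ω ω' _ _ hz => (Prod.ext_iff.mp hz).2).trans (H.yG hp)
  have h7 := H.free2 hp
  linarith

variable {m J : ℕ}

/-- The digits `w, …, w + K` of the time. -/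
def td (F : Fam m J) (w K : ℕ) (ω : F.Ω) : ℤ := (F.T1 (w + K) ω : ℤ) - 2 ^ K * F.T1 w ω

/-- The position of the line at the beginning of the window. -/
noncomputable def xsl (F : Fam m J) (k : Fin m) (w : ℕ) (s : LnT F) : ℝ :=
  s.1.1 k + (s.2.2 : ℝ) / 2 ^ w * s.1.2 k

/-- Its digits. -/
noncomputable def Xl (F : Fam m J) (k : Fin m) (w n : ℕ) (s : LnT F) : ℤ :=
  ⌊(2 : ℝ) ^ n * xsl F k w s⌋

/-- The digits of the velocity of the line. -/
noncomputable def El (F : Fam m J) (k : Fin m) (n : ℕ) (s : LnT F) : ℤ := ⌊(2 : ℝ) ^ n * s.1.2 k⌋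

/-- The context of the line. -/
noncomputable def Cn (F : Fam m J) (k : Fin m) (w n N : ℕ) {V : Type} (zl : LnT F → V)
    (s : LnT F) : (F.ζ × ℕ) × (V × (ℤ × ℤ)) := (s.2, (zl s, (Xl F k w n s, El F k N s)))

section

variable {F : Fam m J} {k : Fin m} {w K : ℕ}

theorem td_mem (h : w + K ≤ J) (ω : F.Ω) : 0 ≤ td F w K ω ∧ td F w K ω < 2 ^ K := by
  have h1 := T1_div F h ω
  have h2 := Nat.div_add_mod (F.T1 (w + K) ω) (2 ^ K)
  have h3 := Nat.mod_lt (F.T1 (w + K) ω) (show 0 < 2 ^ K by positivity)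
  rw [← h1] at h2
  unfold td
  have h4 : (F.T1 (w + K) ω : ℤ) = 2 ^ K * F.T1 w ω + (F.T1 (w + K) ω % 2 ^ K : ℕ) := by
    exact_mod_cast h2.symm
  have h5 : ((F.T1 (w + K) ω % 2 ^ K : ℕ) : ℤ) < 2 ^ K := by exact_mod_cast h3
  constructor
  · have : (0 : ℤ) ≤ (F.T1 (w + K) ω % 2 ^ K : ℕ) := Int.natCast_nonneg _
    linarith
  · linarith

/-- The position at the time. -/
theorem x_td (h : w + K ≤ J) (ω : F.Ω) : ∃ r : ℝ, r = 2 ^ (w + K) * F.t ω - F.T1 (w + K) ω ∧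
    0 ≤ r ∧ r < 1 ∧ ∀ n : ℕ, w ≤ n → (2 : ℝ) ^ (n + K) * F.x ω k =
      2 ^ (n + K) * xsl F k w (slam F w ω) +
        (td F w K ω + r) * (2 ^ (n - w) * F.d ω k) := by
  obtain ⟨h1, h2⟩ := T1_real F h ω
  refine ⟨_, rfl, h1, h2, fun n hn => ?_⟩
  have e1 : xsl F k w (slam F w ω) = F.u ω k + (F.T1 w ω : ℝ) / 2 ^ w * F.d ω k := rfl
  have e2 : (2 : ℝ) ^ (n + K) = 2 ^ (n - w) * 2 ^ (w + K) := by
    rw [← pow_add]
    congr 1
    omega
  have e3 : (2 : ℝ) ^ (w + K) = 2 ^ w * 2 ^ K := pow_add _ _ _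
  rw [e1, e2]
  unfold Fam.x td
  push_cast
  have h3 : (2 : ℝ) ^ w ≠ 0 := by positivity
  rw [e3]
  field_simp
  ring

/-- The position from the digits of the line, for two samples with the same time. -/
theorem x_two (hK : w + K ≤ J) {n : ℕ} (hn : w ≤ n) {ω ω' : F.Ω} (hT : F.T ω = F.T ω')
    (hE : El F k (n - w) (slam F w ω) = El F k (n - w) (slam F w ω')) :
    |(((Xl F k w (n + K) (slam F w ω) : ℝ) + td F w K ω * El F k (n + K - w) (slam F w ω) / 2 ^ K) -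
      ((Xl F k w (n + K) (slam F w ω') : ℝ) +
        td F w K ω * El F k (n + K - w) (slam F w ω') / 2 ^ K)) -
      (2 ^ (n + K) * F.x ω k - 2 ^ (n + K) * F.x ω' k)| ≤ 3 := by
  obtain ⟨r, hr, r0, r1, hx⟩ := x_td (k := k) hK ω
  obtain ⟨r', hr', -, -, hx'⟩ := x_td (k := k) hK ω'
  have ht : F.t ω = F.t ω' := by
    unfold Fam.t
    rw [hT]
  have hT1 : ∀ g, F.T1 g ω = F.T1 g ω' := fun g => by
    unfold Fam.T1
    rw [hT]
  have hrr : r' = r := by rw [hr, hr', ht, hT1]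
  have htd : td F w K ω' = td F w K ω := by
    unfold td
    rw [hT1, hT1]
  have h1 := hx n hn
  have h2 := hx' n hn
  rw [hrr, htd] at h2
  obtain ⟨t0, t1⟩ := td_mem hK ω
  have t0' : (0 : ℝ) ≤ td F w K ω := by exact_mod_cast t0
  have t1' : (td F w K ω : ℝ) < 2 ^ K := by exact_mod_cast t1
  have pK : (0 : ℝ) < 2 ^ K := by positivity
  obtain ⟨E, hEd⟩ : ∃ E : F.Ω → ℝ, E = fun o => (2 : ℝ) ^ (n + K - w) * F.d o k := ⟨_, rfl⟩
  have e1 : ∀ o, El F k (n + K - w) (slam F w o) = ⌊E o⌋ := fun o => by rw [hEd]; rfl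
  have e2 : ∀ o, Xl F k w (n + K) (slam F w o) = ⌊(2 : ℝ) ^ (n + K) * xsl F k w (slam F w o)⌋ :=
    fun o => rfl
  have e3 : ∀ o, (2 : ℝ) ^ (n - w) * F.d o k = E o / 2 ^ K := fun o => by
    rw [hEd, eq_div_iff pK.ne']
    have : (2 : ℝ) ^ (n + K - w) = 2 ^ (n - w) * 2 ^ K := by
      rw [← pow_add]
      congr 1
      omega
    simp only [this]
    ring
  rw [e3] at h1 h2
  have h3 : |E ω / 2 ^ K - E ω' / 2 ^ K| ≤ 1 := by
    rw [← e3, ← e3]
    exact (Int.abs_sub_lt_one_of_floor_eq_floor hE).le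
  rw [e1, e1, e2, e2]
  have f1 := Int.floor_le ((2 : ℝ) ^ (n + K) * xsl F k w (slam F w ω))
  have f2 := Int.lt_floor_add_one ((2 : ℝ) ^ (n + K) * xsl F k w (slam F w ω))
  have f3 := Int.floor_le ((2 : ℝ) ^ (n + K) * xsl F k w (slam F w ω'))
  have f4 := Int.lt_floor_add_one ((2 : ℝ) ^ (n + K) * xsl F k w (slam F w ω'))
  have g1 := Int.floor_le (E ω)
  have g2 := Int.lt_floor_add_one (E ω)
  have g3 := Int.floor_le (E ω')
  have g4 := Int.lt_floor_add_one (E ω')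
  obtain ⟨t, ht0⟩ : ∃ t : ℝ, t = td F w K ω := ⟨_, rfl⟩
  rw [← ht0] at t0' t1' h1 h2 ⊢
  have k1 : |t / 2 ^ K * ((⌊E ω⌋ : ℝ) - E ω - (⌊E ω'⌋ - E ω'))| ≤ 1 := by
    rw [abs_mul, abs_of_nonneg (by positivity : (0 : ℝ) ≤ t / 2 ^ K)]
    have a1 : t / 2 ^ K ≤ 1 := by rw [div_le_one pK]; exact t1'.le
    have a2 : |(⌊E ω⌋ : ℝ) - E ω - (⌊E ω'⌋ - E ω')| ≤ 1 := by
      rw [abs_le]
      constructor <;> linarith
    calc _ ≤ 1 * 1 := mul_le_mul a1 a2 (abs_nonneg _) zero_le_one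
      _ = 1 := one_mul _
  have k2 : |r * (E ω / 2 ^ K - E ω' / 2 ^ K)| ≤ 1 := by
    rw [abs_mul, abs_of_nonneg r0]
    calc _ ≤ 1 * 1 := mul_le_mul r1.le h3 (abs_nonneg _) zero_le_one
      _ = 1 := one_mul _
  rw [h1, h2]
  rw [abs_le] at k1 k2 ⊢
  have e5 : ∀ x : ℝ, t * x / 2 ^ K = t / 2 ^ K * x := fun x => by ring
  rw [e5, e5]
  have e6 : ∀ x : ℝ, (t + r) * (x / 2 ^ K) = t / 2 ^ K * x + r * (x / 2 ^ K) := fun x => by ring
  rw [e6, e6]
  constructor <;> nlinarith [k1.1, k1.2, k2.1, k2.2]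

end

end Pool.MM97
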