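import Pool.Agent.H97.MM.Fam1

/-!
# Data of the line do not see the position: one coordinate of a family, the entropies
-/

set_option autoImplicit false

namespace Pool.MM97

open Finset Real
open Pool.Agent.H49.Ent Pool.Agent.H32.Dense Pool.STK Pool.OWN68 Pool.PR46 Pool.MM91 Pool.KA
open Pool.KSAT Pool.K2S Pool.PB Pool.GEN
open Pool.BFL (Pb)
open Pool.AVG71 (CH_pair_int)

variable {m J : ℕ}

/-- The time given its first digits. -/
theorem T_le {F : Fam m J} {p : F.Ω → ℝ} (hp : IsLaw p) {g : ℕ} (hg : g ≤ J) {𝓦 : Type}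
    (Z : F.Ω → 𝓦) (hZ : Det p Z (F.T1 g)) : CH p F.T Z ≤ ((J : ℝ) - g) * Real.log 2 := by
  have h0 := hp.nonneg
  refine (CH_mono_cond h0 (X := F.T) (W := F.T1 g) hZ).trans ?_
  refine (CH_le_card h0 hp.sum_one F.T _
    (fun v => Finset.Ico (v * 2 ^ (J - g)) ((v + 1) * 2 ^ (J - g))) ?_).trans ?_
  · intro ω _
    rw [Finset.mem_Ico]
    unfold Fam.T1
    constructor
    · exact Nat.div_mul_le_self _ _
    · rw [← Nat.div_lt_iff_lt_mul (by positivity)]
      exact Nat.lt_succ_self _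
  · refine le_of_eq ?_
    have : ∀ v : ℕ, (Finset.Ico (v * 2 ^ (J - g)) ((v + 1) * 2 ^ (J - g))).card = 2 ^ (J - g) := by
      intro v
      rw [Nat.card_Ico, add_mul, one_mul, Nat.add_sub_cancel_left]
    simp only [this]
    push_cast
    rw [Ex_const hp.sum_one, Real.log_pow, Nat.cast_sub hg]

section

variable {F : Fam m J} {k : Fin m} {w n K : ℕ} {p : F.Ω → ℝ}

/-- The window and the digits `td` determine the digits of the time. -/
theorem T1_of_td {ω ω' : F.Ω} (h1 : F.T1 w ω = F.T1 w ω') (h2 : td F w K ω = td F w K ω') :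
    F.T1 (w + K) ω = F.T1 (w + K) ω' := by
  unfold td at h2
  rw [h1] at h2
  have h3 : (F.T1 (w + K) ω : ℤ) = F.T1 (w + K) ω' := by linarith
  exact_mod_cast h3

theorem td_of_T {ω ω' : F.Ω} (h : F.T ω = F.T ω') : td F w K ω = td F w K ω' := by
  unfold td Fam.T1
  rw [h]

/-- The digits of the position at the time from those at the beginning of the window. -/
theorem x_near (hn : w ≤ n) (hw : w ≤ J) {ω ω' : F.Ω} (hT : F.T ω = F.T ω')
    (hE : F.D (n - w) ω k = F.D (n - w) ω' k) :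
    |(2 ^ n * F.x ω k - 2 ^ n * F.x ω' k) - (2 ^ n * xsl F k w (slam F w ω) -
      2 ^ n * xsl F k w (slam F w ω'))| ≤ 1 := by
  obtain ⟨r, hr, r0, r1, hx⟩ := x_td (K := 0) (k := k) (by simpa using hw) ω
  obtain ⟨r', hr', -, -, hx'⟩ := x_td (K := 0) (k := k) (by simpa using hw) ω'
  have ht : F.t ω = F.t ω' := by
    unfold Fam.t
    rw [hT]
  have hT1 : ∀ g, F.T1 g ω = F.T1 g ω' := fun g => by
    unfold Fam.T1
    rw [hT]
  have hrr : r' = r := by rw [hr, hr', ht, hT1]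
  have h2 := hx n hn
  have h3 := hx' n hn
  have e0 : ∀ o : F.Ω, (td F w 0 o : ℝ) = 0 := fun o => by
    unfold td
    simp
  rw [hrr] at h3
  rw [e0, zero_add, Nat.add_zero] at h2 h3
  rw [h2, h3]
  have h4 : |2 ^ (n - w) * F.d ω k - 2 ^ (n - w) * F.d ω' k| ≤ 1 :=
    (Int.abs_sub_lt_one_of_floor_eq_floor hE).le
  have e1 : (2 ^ n * xsl F k w (slam F w ω) + r * (2 ^ (n - w) * F.d ω k) -
      (2 ^ n * xsl F k w (slam F w ω') + r * (2 ^ (n - w) * F.d ω' k)) -
      (2 ^ n * xsl F k w (slam F w ω) - 2 ^ n * xsl F k w (slam F w ω'))) =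
      r * (2 ^ (n - w) * F.d ω k - 2 ^ (n - w) * F.d ω' k) := by ring
  rw [e1, abs_mul, abs_of_nonneg r0]
  calc _ ≤ 1 * 1 := mul_le_mul r1.le h4 (abs_nonneg _) zero_le_one
    _ = 1 := one_mul _

/-- **The hypotheses of `M1H`** in a family. -/
theorem m1h_fam {V Γ 𝒜 : Type} (hp : IsLaw p) (hwn : w ≤ n) (hK : w + K ≤ J) (zl : LnT F → V)
    (A : LnT F → 𝒜) (G : F.Ω → Γ) (hGW : Det p G F.W) (hGX : Det p G (fun ω => F.X (n + K) ω k))
    {e : ℝ} (hT : ((J : ℝ) - w) * Real.log 2 - e ≤ CH p F.T (slam F w))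
    (hz : CH p (fun ω => zl (slam F w ω)) G ≤ e) (hA : CH p (fun ω => A (slam F w ω)) G ≤ e)
    (hE : CH p (fun ω => F.D (n + K - w) ω k)
      (fun ω => (F.D (n - w) ω k, (zl (slam F w ω), F.W ω))) - e ≤
      CH p (fun ω => F.D (n + K - w) ω k) (fun ω => (F.D (n - w) ω k, G ω))) :
    M1H p (2 ^ K) 4 (3 * e + 3)
      (CH p (fun ω => El F k (n + K - w) (slam F w ω)) (fun ω => Cn F k w n (n - w) zl (slam F w ω)))
      (slam F w) (td F w K) (fun ω => (G ω, Cn F k w n (n - w) zl (slam F w ω)))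
      (Cn F k w n (n - w) zl) A (Xl F k w (n + K)) (El F k (n + K - w)) := by
  have h0 := hp.nonneg
  have hwJ : w ≤ J := by omega
  have he : 0 ≤ e := (CH_nonneg h0 _ _).trans hA
  have hl2 : 0 < Real.log 2 := Real.log_pos one_lt_two
  have hTW : ∀ ω ω', 0 < p ω → 0 < p ω' → G ω = G ω' → F.T ω = F.T ω' ∧ F.Z ω = F.Z ω' :=
    fun ω ω' a b h => ⟨(Prod.ext_iff.mp (hGW ω ω' a b h)).1, (Prod.ext_iff.mp (hGW ω ω' a b h)).2⟩
  have hpt : ∀ ω ω', 0 < p ω → 0 < p ω' → G ω = G ω' →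
      |2 ^ (n + K) * F.x ω k - 2 ^ (n + K) * F.x ω' k| ≤ 1 := fun ω ω' a b h =>
    (Int.abs_sub_lt_one_of_floor_eq_floor (hGX ω ω' a b h)).le
  -- the digits of the time
  have htd : CH p (td F w K) (slam F w) ≤ K * Real.log 2 := by
    have h1 := CH_le_card h0 hp.sum_one (td F w K) (slam F w)
      (fun _ => Finset.Ico (0 : ℤ) (2 ^ K)) (fun ω _ => by
        rw [Finset.mem_Ico]
        exact td_mem hK ω)
    rw [Ex_const hp.sum_one, Int.card_Ico, sub_zero] at h1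
    have e2 : ((2 : ℤ) ^ K).toNat = 2 ^ K := by
      have : (2 : ℤ) ^ K = ((2 ^ K : ℕ) : ℤ) := by push_cast; rfl
      rw [this, Int.toNat_natCast]
    rw [e2] at h1
    push_cast at h1
    rwa [Real.log_pow] at h1
  have hfull : K * Real.log 2 - e ≤ CH p (td F w K) (slam F w) := by
    have h1 := CH_le_add h0 F.T (td F w K) (slam F w)
    have h2 := T_le hp hK (fun ω => (td F w K ω, slam F w ω)) (fun ω ω' _ _ h =>
      T1_of_td (Prod.ext_iff.mp (Prod.ext_iff.mp (Prod.ext_iff.mp h).2).2).2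
        (Prod.ext_iff.mp h).1)
    push_cast at h2
    nlinarith
  constructor
  · intro ω _
    obtain ⟨a, b⟩ := td_mem hK ω
    rw [abs_of_nonneg a]
    push_cast
    exact b.le
  · intro ω ω' hω hω' h
    have hG : G ω = G ω' := (Prod.ext_iff.mp h).1
    have hC : Cn F k w n (n - w) zl (slam F w ω) = Cn F k w n (n - w) zl (slam F w ω') :=
      (Prod.ext_iff.mp h).2
    obtain ⟨a, -⟩ := hTW ω ω' hω hω' hG
    have hEl : El F k (n - w) (slam F w ω) = El F k (n - w) (slam F w ω') :=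
      (Prod.ext_iff.mp (Prod.ext_iff.mp (Prod.ext_iff.mp hC).2).2).2
    refine ⟨td_of_T a, hC, ?_⟩
    have h1 := x_two (k := k) hK hwn a hEl
    have h2 := hpt ω ω' hω hω' hG
    push_cast
    rw [abs_le] at h1 h2 ⊢
    constructor <;> linarith [h1.1, h1.2, h2.1, h2.2]
  · have h1 : Real.log (2 * ((2 ^ K : ℕ) : ℝ) + 1) ≤ Real.log 3 + K * Real.log 2 := by
      push_cast
      rw [← Real.log_pow, ← Real.log_mul (by norm_num) (by positivity)]
      refine Real.log_le_log (by positivity) ?_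
      have : (1 : ℝ) ≤ 2 ^ K := one_le_pow₀ (by norm_num)
      linarith
    have h2 : Real.log 3 ≤ 3 := by
      have := Real.log_le_sub_one_of_pos (show (0 : ℝ) < 3 by norm_num)
      linarith
    linarith
  · refine (CH_mono_cond h0 fun ω ω' _ _ h => (Prod.ext_iff.mp h).1).trans ?_
    linarith
  · obtain ⟨E, hEd⟩ : ∃ E : F.Ω → ℤ, E = fun ω => F.D (n + K - w) ω k := ⟨_, rfl⟩
    obtain ⟨Cs, hCs⟩ : ∃ Cs : F.Ω → (F.ζ × ℕ) × (V × (ℤ × ℤ)),
      Cs = fun ω => Cn F k w n (n - w) zl (slam F w ω) := ⟨_, rfl⟩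
    have e1 : (fun ω => El F k (n + K - w) (slam F w ω)) = E := by rw [hEd]; rfl
    rw [e1]
    simp only [← hEd] at hE
    show CH p E (fun ω => Cn F k w n (n - w) zl (slam F w ω)) - (3 * e + 3) ≤
      CH p E (fun ω => (G ω, Cn F k w n (n - w) zl (slam F w ω)))
    have e2 : (fun ω => (G ω, Cn F k w n (n - w) zl (slam F w ω))) = fun ω => (G ω, Cs ω) := by
      rw [hCs]
    rw [e2, ← hCs]
    have hCz : ∀ ω ω', Cs ω = Cs ω' → (F.Z ω = F.Z ω' ∧ F.T1 w ω = F.T1 w ω') ∧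
        zl (slam F w ω) = zl (slam F w ω') ∧ F.D (n - w) ω k = F.D (n - w) ω' k := by
      intro ω ω' h
      rw [hCs] at h
      have a1 := (Prod.ext_iff.mp h).1
      have a2 := (Prod.ext_iff.mp h).2
      have a3 := (Prod.ext_iff.mp a2).2
      exact ⟨⟨(Prod.ext_iff.mp a1).1, (Prod.ext_iff.mp a1).2⟩, (Prod.ext_iff.mp a2).1,
        (Prod.ext_iff.mp a3).2⟩
    -- (a) the time
    have a1 := mi_sym h0 E F.T Cs
    have a2 := T_le hp hwJ Cs (fun ω ω' _ _ h => (hCz ω ω' h).1.2)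
    have a3 : CH p F.T (slam F w) ≤ CH p F.T (fun ω => (E ω, Cs ω)) := by
      refine CH_mono_cond h0 fun ω ω' _ _ h => ?_
      have h' : slam F w ω = slam F w ω' := h
      refine Prod.ext ?_ ?_
      · show E ω = E ω'
        have e3 : ∀ o, E o = El F k (n + K - w) (slam F w o) := fun o => by rw [hEd]; rfl
        rw [e3, e3, h']
      · show Cs ω = Cs ω'
        rw [hCs]
        simp only [h']
    -- (b)
    have b1 : CH p E (fun ω => (F.T ω, Cs ω)) ≤
        CH p E (fun ω => (F.D (n - w) ω k, (zl (slam F w ω), F.W ω))) := by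
      refine CH_mono_cond h0 fun ω ω' _ _ h => ?_
      have h1 : F.T ω = F.T ω' := (Prod.ext_iff.mp h).1
      obtain ⟨⟨c1, c2⟩, c3, c4⟩ := hCz ω ω' (Prod.ext_iff.mp h).2
      exact Prod.ext c4 (Prod.ext c3 (Prod.ext h1 c1))
    -- (d)
    have d1 := CH_cond_add h0 E Cs (fun ω => (F.D (n - w) ω k, G ω))
    have d2 : CH p E (fun ω => (Cs ω, (F.D (n - w) ω k, G ω))) ≤ CH p E (fun ω => (G ω, Cs ω)) := by
      refine CH_mono_cond h0 fun ω ω' _ _ h => ?_
      have c1 : Cs ω = Cs ω' := (Prod.ext_iff.mp h).1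
      have c2 : G ω = G ω' := (Prod.ext_iff.mp (Prod.ext_iff.mp h).2).2
      exact Prod.ext c2 c1
    -- (f)
    have f1 := CH_le_add h0 Cs (fun ω => zl (slam F w ω)) (fun ω => (F.D (n - w) ω k, G ω))
    have f2 : CH p (fun ω => zl (slam F w ω)) (fun ω => (F.D (n - w) ω k, G ω)) ≤
        CH p (fun ω => zl (slam F w ω)) G := CH_mono_cond h0 fun ω ω' _ _ h =>
      (Prod.ext_iff.mp h).2
    have f3 : CH p Cs (fun ω => (zl (slam F w ω), (F.D (n - w) ω k, G ω))) ≤ Real.log 7 := by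
      have g1 : CH p Cs (fun ω => (zl (slam F w ω), (F.D (n - w) ω k, G ω))) ≤
          CH p (fun ω => Xl F k w n (slam F w ω))
            (fun ω => (zl (slam F w ω), (F.D (n - w) ω k, G ω))) := by
        refine CH_mono_left h0 fun ω ω' hω hω' h => ?_
        have c1 : Xl F k w n (slam F w ω) = Xl F k w n (slam F w ω') := (Prod.ext_iff.mp h).1
        have c2 := (Prod.ext_iff.mp h).2
        have c3 : zl (slam F w ω) = zl (slam F w ω') := (Prod.ext_iff.mp c2).1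
        have c4 : F.D (n - w) ω k = F.D (n - w) ω' k :=
          (Prod.ext_iff.mp (Prod.ext_iff.mp c2).2).1
        have c5 : G ω = G ω' := (Prod.ext_iff.mp (Prod.ext_iff.mp c2).2).2
        obtain ⟨c6, c7⟩ := hTW ω ω' hω hω' c5
        have c8 : (slam F w ω).2 = (slam F w ω').2 := by
          refine Prod.ext c7 ?_
          show F.T1 w ω = F.T1 w ω'
          unfold Fam.T1
          rw [c6]
        rw [hCs]
        exact Prod.ext c8 (Prod.ext c3 (Prod.ext c1 c4))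
      have e7 : Real.log 7 = Real.log (2 * 3 + 1) := by norm_num
      rw [e7]
      refine g1.trans (CH_pair_int hp _ _ (by norm_num) fun ω ω' hω hω' h => ?_)
      have c4 : F.D (n - w) ω k = F.D (n - w) ω' k :=
        (Prod.ext_iff.mp (Prod.ext_iff.mp h).2).1
      have c5 : G ω = G ω' := (Prod.ext_iff.mp (Prod.ext_iff.mp h).2).2
      obtain ⟨c6, -⟩ := hTW ω ω' hω hω' c5
      have c7 := x_near (k := k) hwn hwJ c6 c4
      have c8 := hpt ω ω' hω hω' c5
      have c9 : |2 ^ n * F.x ω k - 2 ^ n * F.x ω' k| ≤ 1 := by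
        refine le_trans ?_ c8
        rw [← mul_sub, ← mul_sub, abs_mul, abs_mul,
          abs_of_pos (by positivity : (0 : ℝ) < 2 ^ n),
          abs_of_pos (by positivity : (0 : ℝ) < 2 ^ (n + K))]
        exact mul_le_mul_of_nonneg_right (pow_le_pow_right₀ (by norm_num) (by omega))
          (abs_nonneg _)
      obtain ⟨x, hx⟩ : ∃ x : ℝ, x = 2 ^ n * xsl F k w (slam F w ω) := ⟨_, rfl⟩
      obtain ⟨x', hx'⟩ : ∃ x : ℝ, x = 2 ^ n * xsl F k w (slam F w ω') := ⟨_, rfl⟩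
      show |((⌊2 ^ n * xsl F k w (slam F w ω)⌋ : ℤ) : ℝ) -
        (⌊2 ^ n * xsl F k w (slam F w ω')⌋ : ℤ)| ≤ 3
      rw [← hx, ← hx'] at c7 ⊢
      have i1 := Int.floor_le x
      have i2 := Int.lt_floor_add_one x
      have i3 := Int.floor_le x'
      have i4 := Int.lt_floor_add_one x'
      rw [abs_le] at c7 c9 ⊢
      constructor <;> linarith [c7.1, c7.2, c9.1, c9.2]
    have hl7 : Real.log 7 ≤ 3 := by
      have h8 : Real.log 7 ≤ Real.log (2 ^ 3) := Real.log_le_log (by norm_num) (by norm_num)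
      rw [Real.log_pow] at h8
      have := Real.log_two_lt_d9
      push_cast at h8
      linarith
    linarith
  · exact le_rfl

/-- **The position at the time** is full given the time, the record, the velocity and `A`. -/
theorem mfam {V Γ 𝒜 : Type} (hp : IsLaw p) (hwn : w ≤ n) (hK : w + K ≤ J) (zl : LnT F → V)
    (A : LnT F → 𝒜) (G : F.Ω → Γ) (hGW : Det p G F.W) (hGX : Det p G (fun ω => F.X (n + K) ω k))
    {e : ℝ} (hT : ((J : ℝ) - w) * Real.log 2 - e ≤ CH p F.T (slam F w))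
    (hz : CH p (fun ω => zl (slam F w ω)) G ≤ e) (hA : CH p (fun ω => A (slam F w ω)) G ≤ e)
    (hE : CH p (fun ω => F.D (n + K - w) ω k)
      (fun ω => (F.D (n - w) ω k, (zl (slam F w ω), F.W ω))) - e ≤
      CH p (fun ω => F.D (n + K - w) ω k) (fun ω => (F.D (n - w) ω k, G ω)))
    {B δ : ℝ} (hB : 0 < B)
    (hal : Pb (glue p p (fun ω => (A (slam F w ω), (G ω, Cn F k w n (n - w) zl (slam F w ω))))
        (fun ω => (A (slam F w ω), (G ω, Cn F k w n (n - w) zl (slam F w ω)))))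
      (fun v => |(El F k (n + K - w) (slam F w v.2) : ℝ) -
        El F k (n + K - w) (slam F w v.1)| < B) ≤ δ) :
    K * Real.log 2 - (43 * e + δ * Real.log (4 * 2 ^ K + 1) + Real.log (34 * (2 ^ K / B) + 1) +
      51) ≤
    CH p (fun ω => F.X (n + K) ω k) (fun ω => (F.X n ω k, (F.D (n + K - w) ω k,
      (A (slam F w ω), (zl (slam F w ω), F.W ω))))) := by
  have h0 := hp.nonneg
  have hwJ : w ≤ J := by omega
  have hl2 : 0 < Real.log 2 := Real.log_pos one_lt_two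
  have H := m1h_fam hp hwn hK zl A G hGW hGX hT hz hA hE
  have key := posE hp (Nat.one_le_two_pow) H hB hal
  obtain ⟨Y, hY⟩ : ∃ Y : F.Ω → ℤ, Y = fun ω => y1 (2 ^ K) (Xl F k w (n + K))
    (El F k (n + K - w)) (slam F w ω) (td F w K ω) := ⟨_, rfl⟩
  obtain ⟨Z, hZ⟩ : ∃ Z : F.Ω → ℤ × (ℤ × (𝒜 × ((F.ζ × ℕ) × (V × (ℤ × ℤ))))),
    Z = fun ω => (El F k (n + K - w) (slam F w ω), (td F w K ω, (A (slam F w ω),
      Cn F k w n (n - w) zl (slam F w ω)))) := ⟨_, rfl⟩
  rw [← hY, ← hZ] at key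
  -- what the context knows
  have hZd : ∀ ω ω', Z ω = Z ω' → F.D (n + K - w) ω k = F.D (n + K - w) ω' k ∧
      td F w K ω = td F w K ω' ∧ A (slam F w ω) = A (slam F w ω') ∧
      (F.Z ω = F.Z ω' ∧ F.T1 w ω = F.T1 w ω') ∧ zl (slam F w ω) = zl (slam F w ω') ∧
      Xl F k w n (slam F w ω) = Xl F k w n (slam F w ω') ∧
      El F k (n - w) (slam F w ω) = El F k (n - w) (slam F w ω') := by
    intro ω ω' h
    rw [hZ] at h
    have a1 := Prod.ext_iff.mp h
    have a2 := Prod.ext_iff.mp a1.2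
    have a3 := Prod.ext_iff.mp a2.2
    have a4 := Prod.ext_iff.mp a3.2
    have a5 := Prod.ext_iff.mp a4.1
    have a6 := Prod.ext_iff.mp a4.2
    have a7 := Prod.ext_iff.mp a6.2
    exact ⟨a1.1, a2.1, a3.1, ⟨a5.1, a5.2⟩, a6.1, a7.1, a7.2⟩
  -- the whole time in the context
  have t1 := mi_sym h0 Y F.T Z
  have t2 := T_le hp hK Z (fun ω ω' _ _ h => T1_of_td (hZd ω ω' h).2.2.2.1.2 (hZd ω ω' h).2.1)
  have t3 : CH p F.T (fun ω => (td F w K ω, slam F w ω)) ≤ CH p F.T (fun ω => (Y ω, Z ω)) := by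
    refine CH_mono_cond h0 fun ω ω' _ _ h => ?_
    have a1 : td F w K ω = td F w K ω' := (Prod.ext_iff.mp h).1
    have a2 : slam F w ω = slam F w ω' := (Prod.ext_iff.mp h).2
    rw [hY, hZ]
    simp only [a1, a2]
  have t4 := CH_cond_add h0 F.T (td F w K) (slam F w)
  have t5 : CH p (td F w K) (slam F w) ≤ K * Real.log 2 := by
    have h1 := CH_le_card h0 hp.sum_one (td F w K) (slam F w)
      (fun _ => Finset.Ico (0 : ℤ) (2 ^ K)) (fun ω _ => by
        rw [Finset.mem_Ico]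
        exact td_mem hK ω)
    rw [Ex_const hp.sum_one, Int.card_Ico, sub_zero] at h1
    have e2 : ((2 : ℤ) ^ K).toNat = 2 ^ K := by
      have : (2 : ℤ) ^ K = ((2 ^ K : ℕ) : ℤ) := by push_cast; rfl
      rw [this, Int.toNat_natCast]
    rw [e2] at h1
    push_cast at h1
    rwa [Real.log_pow] at h1
  push_cast at t2
  -- the position at the time
  have s1 := CH_le_add h0 Y (fun ω => F.X (n + K) ω k) (fun ω => (F.T ω, Z ω))
  have s2 : CH p Y (fun ω => (F.X (n + K) ω k, (F.T ω, Z ω))) ≤ Real.log 11 := by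
    have e11 : Real.log 11 = Real.log (2 * 5 + 1) := by norm_num
    rw [e11]
    refine CH_pair_int hp _ _ (by norm_num) fun ω ω' hω hω' h => ?_
    have a1 : F.X (n + K) ω k = F.X (n + K) ω' k := (Prod.ext_iff.mp h).1
    have a2 : F.T ω = F.T ω' := (Prod.ext_iff.mp (Prod.ext_iff.mp h).2).1
    obtain ⟨b1, b2, b3, b4, b5, b6, b7⟩ := hZd ω ω' (Prod.ext_iff.mp (Prod.ext_iff.mp h).2).2
    have c1 := x_two (k := k) hK hwn a2 b7
    have c2 : |2 ^ (n + K) * F.x ω k - 2 ^ (n + K) * F.x ω' k| ≤ 1 :=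
      (Int.abs_sub_lt_one_of_floor_eq_floor a1).le
    rw [hY]
    show |((⌊(Xl F k w (n + K) (slam F w ω) : ℝ) + td F w K ω *
      El F k (n + K - w) (slam F w ω) / ((2 ^ K : ℕ) : ℝ)⌋ : ℤ) : ℝ) -
      (⌊(Xl F k w (n + K) (slam F w ω') : ℝ) + td F w K ω' *
      El F k (n + K - w) (slam F w ω') / ((2 ^ K : ℕ) : ℝ)⌋ : ℤ)| ≤ 5
    rw [← b2]
    push_cast
    obtain ⟨x, hx⟩ : ∃ x : ℝ, x = (Xl F k w (n + K) (slam F w ω) : ℝ) + td F w K ω *
      El F k (n + K - w) (slam F w ω) / 2 ^ K := ⟨_, rfl⟩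
    obtain ⟨x', hx'⟩ : ∃ x : ℝ, x = (Xl F k w (n + K) (slam F w ω') : ℝ) + td F w K ω *
      El F k (n + K - w) (slam F w ω') / 2 ^ K := ⟨_, rfl⟩
    rw [← hx, ← hx'] at c1 ⊢
    have i1 := Int.floor_le x
    have i2 := Int.lt_floor_add_one x
    have i3 := Int.floor_le x'
    have i4 := Int.lt_floor_add_one x'
    rw [abs_le] at c1 c2 ⊢
    constructor <;> linarith [c1.1, c1.2, c2.1, c2.2]
  -- the first digits of the position
  have s3 := CH_le_add h0 (fun ω => F.X (n + K) ω k) (fun ω => F.X n ω k)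
    (fun ω => (F.T ω, Z ω))
  have s4 : CH p (fun ω => F.X n ω k) (fun ω => (F.T ω, Z ω)) ≤ Real.log 7 := by
    have e7 : Real.log 7 = Real.log (2 * 3 + 1) := by norm_num
    rw [e7]
    refine CH_pair_int hp _ _ (by norm_num) fun ω ω' hω hω' h => ?_
    have a2 : F.T ω = F.T ω' := (Prod.ext_iff.mp h).1
    obtain ⟨b1, b2, b3, b4, b5, b6, b7⟩ := hZd ω ω' (Prod.ext_iff.mp h).2
    have c1 := x_near (k := k) hwn hwJ a2 b7
    have c2 : |2 ^ n * xsl F k w (slam F w ω) - 2 ^ n * xsl F k w (slam F w ω')| ≤ 1 :=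
      (Int.abs_sub_lt_one_of_floor_eq_floor b6).le
    show |((⌊2 ^ n * F.x ω k⌋ : ℤ) : ℝ) - (⌊2 ^ n * F.x ω' k⌋ : ℤ)| ≤ 3
    obtain ⟨x, hx⟩ : ∃ x : ℝ, x = 2 ^ n * F.x ω k := ⟨_, rfl⟩
    obtain ⟨x', hx'⟩ : ∃ x : ℝ, x = 2 ^ n * F.x ω' k := ⟨_, rfl⟩
    rw [← hx, ← hx'] at c1 ⊢
    have i1 := Int.floor_le x
    have i2 := Int.lt_floor_add_one x
    have i3 := Int.floor_le x'
    have i4 := Int.lt_floor_add_one x'
    rw [abs_le] at c1 c2 ⊢
    constructor <;> linarith [c1.1, c1.2, c2.1, c2.2]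
  have s5 : CH p (fun ω => F.X (n + K) ω k) (fun ω => (F.X n ω k, (F.T ω, Z ω))) ≤
      CH p (fun ω => F.X (n + K) ω k) (fun ω => (F.X n ω k, (F.D (n + K - w) ω k,
      (A (slam F w ω), (zl (slam F w ω), F.W ω))))) := by
    refine CH_mono_cond h0 fun ω ω' _ _ h => ?_
    have a1 : F.X n ω k = F.X n ω' k := (Prod.ext_iff.mp h).1
    have a2 : F.T ω = F.T ω' := (Prod.ext_iff.mp (Prod.ext_iff.mp h).2).1
    obtain ⟨b1, b2, b3, b4, b5, b6, b7⟩ := hZd ω ω' (Prod.ext_iff.mp (Prod.ext_iff.mp h).2).2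
    exact Prod.ext a1 (Prod.ext b1 (Prod.ext b3 (Prod.ext b5 (Prod.ext a2 b4.1))))
  -- the numbers
  have hl11 : Real.log 11 ≤ 3 := by
    have h8 : Real.log 11 ≤ Real.log (2 ^ 4) := Real.log_le_log (by norm_num) (by norm_num)
    rw [Real.log_pow] at h8
    have := Real.log_two_lt_d9
    push_cast at h8
    linarith
  have hl7 : Real.log 7 ≤ 3 := by
    have h8 : Real.log 7 ≤ Real.log (2 ^ 3) := Real.log_le_log (by norm_num) (by norm_num)
    rw [Real.log_pow] at h8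
    have := Real.log_two_lt_d9
    push_cast at h8
    linarith
  have hM : K * Real.log 2 ≤ Real.log (2 * ((2 ^ K : ℕ) : ℝ) + 1) := by
    rw [← Real.log_pow]
    refine Real.log_le_log (by positivity) ?_
    push_cast
    have : (0 : ℝ) < 2 ^ K := by positivity
    linarith
  have e3 : Real.log (2 * ((4 * ((4 : ℕ) : ℝ) + 1) * ((2 ^ K : ℕ) : ℝ) / B) + 1) =
      Real.log (34 * (2 ^ K / B) + 1) := by
    congr 1
    push_cast
    ring
  have e4 : Real.log (2 * ((4 : ℕ) : ℝ) + 3) = Real.log 11 := by norm_num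
  have e5 : Real.log (4 * ((2 ^ K : ℕ) : ℝ) + 1) = Real.log (4 * 2 ^ K + 1) := by push_cast; rfl
  rw [e3, e4, e5] at key
  nlinarith

end

end Pool.MM97
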