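import Pool.Agent.H97.MM.Def
import Pool.Agent.H97.CHN.Shf

/-!
# Two hops over the base (lemma (M))
-/

set_option autoImplicit false

namespace Pool.MM

open Finset Real
open Pool.Agent.H49.Ent Pool.Agent.H32.Dense Pool.STK Pool.POT Pool.TQ
open Pool.K2S (Pe)
open Pool.LPX (tp)
open Pool.CHN (Qn Qc lk Tn pt Qn_pos Qn_nonneg Qn_law Qn_pt step_ge win same_line same_ball lk_even
  lk_odd Im.Pe)

variable {Ω γ Λ ζ : Type} {k j : ℕ} [Fintype Ω] {p : Ω → ℝ} {G : Ω → γ} {ln : Ω → Λ} {W : Ω → ζ}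
  {T : Ω → ℤ} {P E : Fin k → Ω → ℤ} {D : Fin j → Ω → ℤ} {N n : ℕ} {C K d : ℝ}

/-- The link of a hop. -/
def bl (G : Ω → γ) (E : Fin k → Ω → ℤ) (N n : ℕ) (ω : Ω) : γ × (Fin k → ℤ) := (G ω, tv N n E ω)

/-- The law of the two hops. -/
noncomputable abbrev q4 (p : Ω → ℝ) (G : Ω → γ) (ln : Ω → Λ) (E : Fin k → Ω → ℤ) (N n : ℕ) :
    Tn Ω 3 → ℝ := Qc p (bl G E N n) ln 3

/-- What the four points have in common. -/
structure Fc (p : Ω → ℝ) (G : Ω → γ) (ln : Ω → Λ) (E : Fin k → Ω → ℤ) (N n : ℕ) (w : Tn Ω 3) :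
    Prop where
  pos : ∀ i, i ≤ 3 → 0 < p (pt 3 w i)
  g1 : G (pt 3 w 0) = G (pt 3 w 1)
  e1 : tv N n E (pt 3 w 0) = tv N n E (pt 3 w 1)
  l : ln (pt 3 w 1) = ln (pt 3 w 2)
  g2 : G (pt 3 w 2) = G (pt 3 w 3)
  e2 : tv N n E (pt 3 w 2) = tv N n E (pt 3 w 3)

theorem fc (hp : ∀ ω, 0 ≤ p ω) {w : Tn Ω 3} (hw : 0 < q4 p G ln E N n w) :
    Fc p G ln E N n w := by
  have h1 := same_line hp hw (i := 0) (by omega)
  have h2 := same_ball hp hw (i := 0) (by omega)
  have h3 := same_line hp hw (i := 1) (by omega)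
  unfold bl at h1 h3
  simp only [Prod.mk.injEq] at h1 h3
  exact ⟨(Qn_pos hp _ w hw).1, h1.1, h1.2, h2, h3.1, h3.2⟩

theorem Fc.tve (H : Mh p G ln W T P E D N n C K d) {w : Tn Ω 3} (h : Fc p G ln E N n w) :
    tv N n E (pt 3 w 1) = tv N n E (pt 3 w 2) := by
  funext i
  unfold tv
  rw [H.lE i _ _ (h.pos 1 (by omega)) (h.pos 2 (by omega)) h.l]

theorem Fc.W3 (H : Mh p G ln W T P E D N n C K d) {w : Tn Ω 3} (h : Fc p G ln E N n w) :
    W (pt 3 w 3) = W (pt 3 w 0) := by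
  rw [← H.GW _ _ (h.pos 2 (by omega)) (h.pos 3 le_rfl) h.g2,
    ← H.lW _ _ (h.pos 1 (by omega)) (h.pos 2 (by omega)) h.l,
    H.GW _ _ (h.pos 0 (by omega)) (h.pos 1 (by omega)) h.g1]

theorem Fc.T1 (H : Mh p G ln W T P E D N n C K d) {w : Tn Ω 3} (h : Fc p G ln E N n w) :
    T (pt 3 w 0) = T (pt 3 w 1) := H.GT _ _ (h.pos 0 (by omega)) (h.pos 1 (by omega)) h.g1

theorem Fc.T3 (H : Mh p G ln W T P E D N n C K d) {w : Tn Ω 3} (h : Fc p G ln E N n w) :
    T (pt 3 w 2) = T (pt 3 w 3) := H.GT _ _ (h.pos 2 (by omega)) (h.pos 3 le_rfl) h.g2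

/-- **The relation.** -/
theorem Fc.rel (H : Mh p G ln W T P E D N n C K d) {w : Tn Ω 3} (h : Fc p G ln E N n w)
    (i : Fin k) : |(P i (pt 3 w 3) : ℝ) - (P i (pt 3 w 0) +
      T (pt 3 w 0) * (((E i (pt 3 w 0) : ℝ) - E i (pt 3 w 1)) / 2 ^ N) +
      T (pt 3 w 2) * (((E i (pt 3 w 1) : ℝ) - E i (pt 3 w 3)) / 2 ^ N))| ≤ 2 * C := by
  have h1 := H.pos i _ _ (h.pos 0 (by omega)) (h.pos 1 (by omega)) h.g1
  have h2 := H.pos i _ _ (h.pos 2 (by omega)) (h.pos 3 le_rfl) h.g2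
  rw [← h.T1 H] at h1
  rw [← h.T3 H, ← H.lP i _ _ (h.pos 1 (by omega)) (h.pos 2 (by omega)) h.l,
    ← H.lE i _ _ (h.pos 1 (by omega)) (h.pos 2 (by omega)) h.l] at h2
  have e : (P i (pt 3 w 3) : ℝ) - (P i (pt 3 w 0) +
      T (pt 3 w 0) * (((E i (pt 3 w 0) : ℝ) - E i (pt 3 w 1)) / 2 ^ N) +
      T (pt 3 w 2) * (((E i (pt 3 w 1) : ℝ) - E i (pt 3 w 3)) / 2 ^ N)) =
      -((((P i (pt 3 w 0) : ℝ) + T (pt 3 w 0) * (E i (pt 3 w 0) / 2 ^ N)) -
        (P i (pt 3 w 1) + T (pt 3 w 0) * (E i (pt 3 w 1) / 2 ^ N))) +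
      (((P i (pt 3 w 1) : ℝ) + T (pt 3 w 2) * (E i (pt 3 w 1) / 2 ^ N)) -
        (P i (pt 3 w 3) + T (pt 3 w 2) * (E i (pt 3 w 3) / 2 ^ N)))) := by ring
  rw [e, abs_neg]
  refine (abs_add_le _ _).trans ?_
  linarith

/-- The velocities of the last point. -/
theorem Fc.D3 (H : Mh p G ln W T P E D N n C K d) {w : Tn Ω 3} (h : Fc p G ln E N n w)
    (i : Fin j) : |(D i (pt 3 w 3) : ℝ) - D i (pt 3 w 0)| ≤ 2 * K := by
  have h1 := H.near i _ _ (h.pos 0 (by omega)) (h.pos 1 (by omega)) h.g1 h.e1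
  have h2 := H.near i _ _ (h.pos 2 (by omega)) (h.pos 3 le_rfl) h.g2 h.e2
  rw [← H.lD i _ _ (h.pos 1 (by omega)) (h.pos 2 (by omega)) h.l] at h2
  have x1 := abs_le.1 h1
  have x2 := abs_le.1 h2
  rw [abs_le]
  constructor <;> linarith [x1.1, x1.2, x2.1, x2.2]

/-- The first velocity is full given the rest. -/
theorem E_full (H : Mh p G ln W T P E D N n C K d) (hnN : n ≤ N) :
    k * (((N : ℝ) - n) * Real.log 2) - 3 * d ≤
      CH (q4 p G ln E N n) (fun w => vc E (pt 3 w 1))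
        (fun w => (vc E (pt 3 w 3), (T (pt 3 w 2), pt 3 w 0))) := by
  have hp := H.law.nonneg
  have hq : ∀ w, 0 ≤ q4 p G ln E N n w := Qn_nonneg (c := lk (bl G E N n) ln) hp 3
  have hql : IsLaw (q4 p G ln E N n) := Qn_law H.law 3
  obtain ⟨F, hF⟩ : ∃ F, F = k * (((N : ℝ) - n) * Real.log 2) := ⟨_, rfl⟩
  rw [← hF]
  have hfree := H.free
  rw [← hF] at hfree
  -- the three full variables
  have f1 : F - d ≤ CH (q4 p G ln E N n) (fun w => vc E (pt 3 w 1)) (fun w => pt 3 w 0) := by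
    refine hfree.trans ?_
    have h1 := step_ge (c := lk (bl G E N n) ln) hp 0 (vc E) (bl G E N n) (by
      rw [lk_even _ _ (by omega)]
      intro ω ω' _ _ e
      simp only [e]) (fun w : Tn Ω 1 => pt 1 w 0) (by
      intro w w' _ _ e
      exact (Prod.ext_iff.mp e).2)
    refine h1.trans ?_
    obtain ⟨f, hf, hf2⟩ := win (ln := bl G E N n) (B := ln) hp 3 1 0 (by omega)
    rw [← hf.CH]
    refine le_of_eq ?_
    congr 1
    · funext w
      rw [hf2 w (0 + 1) (by omega)]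
    · funext w
      rw [hf2 w 0 (by omega)]
  have f2 : N * Real.log 2 - d ≤ CH (q4 p G ln E N n) (fun w => T (pt 3 w 2))
      (fun w => (pt 3 w 0, pt 3 w 1)) := by
    refine H.tf.trans ?_
    have h1 := step_ge (c := lk (bl G E N n) ln) hp 1 T ln (by
      rw [lk_odd _ _ (by omega)]
      intro ω ω' _ _ e
      simp only [e]) (fun w : Tn Ω 2 => (pt 2 w 0, pt 2 w 1)) (by
      intro w w' _ _ e
      have e3 := (Prod.ext_iff.mp e).2
      have g1 : pt 2 w 0 = pt 2 w' 0 := Pool.CHN.det_old (fun ω => ω) (by omega) w w' e3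
      have g2 : pt 2 w 1 = pt 2 w' 1 := Pool.CHN.det_old (fun ω => ω) (by omega) w w' e3
      simp only [g1, g2])
    refine h1.trans ?_
    obtain ⟨f, hf, hf2⟩ := win (ln := bl G E N n) (B := ln) hp 3 2 0 (by omega)
    rw [← hf.CH]
    refine le_of_eq ?_
    congr 1
    · funext w
      rw [hf2 w (1 + 1) (by omega)]
    · funext w
      rw [hf2 w 0 (by omega), hf2 w 1 (by omega)]
  have f3 : F - d ≤ CH (q4 p G ln E N n) (fun w => vc E (pt 3 w 3))
      (fun w => (pt 3 w 0, (pt 3 w 1, pt 3 w 2))) := by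
    refine hfree.trans ?_
    exact step_ge (c := lk (bl G E N n) ln) hp 2 (vc E) (bl G E N n) (by
      rw [lk_even _ _ (by omega)]
      intro ω ω' _ _ e
      simp only [e]) (fun w : Tn Ω 3 => (pt 3 w 0, (pt 3 w 1, pt 3 w 2))) (by
      intro w w' _ _ e
      have e3 := (Prod.ext_iff.mp e).2
      have g1 : pt 3 w 0 = pt 3 w' 0 := Pool.CHN.det_old (fun ω => ω) (by omega) w w' e3
      have g2 : pt 3 w 1 = pt 3 w' 1 := Pool.CHN.det_old (fun ω => ω) (by omega) w w' e3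
      have g3 : pt 3 w 2 = pt 3 w' 2 := Pool.CHN.det_old (fun ω => ω) (by omega) w w' e3
      simp only [g1, g2, g3])
  -- upper bounds
  have u2 : CH (q4 p G ln E N n) (fun w => T (pt 3 w 2)) (fun w => pt 3 w 0) ≤
      N * Real.log 2 := by
    refine Pool.LPX.time_le hql _ _ fun w hw => ?_
    exact H.t0 _ ((fc hp hw).pos 2 (by omega))
  have u3 : CH (q4 p G ln E N n) (fun w => vc E (pt 3 w 3))
      (fun w => (T (pt 3 w 2), pt 3 w 0)) ≤ F := by
    have h1 := CH_vec hq (fun w => (T (pt 3 w 2), pt 3 w 0)) (b := (N - n : ℕ) * Real.log 2) k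
      (fun i w => E i (pt 3 w 3)) fun i => CH_low hql _ _ (by
        intro w w' a b e
        have e1 := (Prod.ext_iff.mp e).2
        have x := fc hp a
        have y := fc hp b
        have x1 : tv N n E (pt 3 w 3) = tv N n E (pt 3 w 0) := by
          rw [← x.e2, ← x.tve H, ← x.e1]
        have y1 : tv N n E (pt 3 w' 3) = tv N n E (pt 3 w' 0) := by
          rw [← y.e2, ← y.tve H, ← y.e1]
        have z : tv N n E (pt 3 w 3) = tv N n E (pt 3 w' 3) := by
          rw [x1, y1]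
          exact congrArg _ e1
        exact congrFun z i)
    rw [Nat.cast_sub hnN] at h1
    rw [hF]
    exact h1
  -- the chain
  have m1 : MI (q4 p G ln E N n) (fun w => T (pt 3 w 2)) (fun w => vc E (pt 3 w 1))
      (fun w => pt 3 w 0) ≤ d := by
    unfold MI
    have h1 : CH (q4 p G ln E N n) (fun w => T (pt 3 w 2)) (fun w => (pt 3 w 0, pt 3 w 1)) ≤
        CH (q4 p G ln E N n) (fun w => T (pt 3 w 2)) (fun w => (vc E (pt 3 w 1), pt 3 w 0)) := by
      refine CH_mono_cond hq ?_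
      intro w w' _ _ e
      simp only [Prod.mk.injEq] at e ⊢
      exact ⟨by rw [e.2], e.1⟩
    linarith
  rw [MI_symm hq] at m1
  unfold MI at m1
  have m2 : MI (q4 p G ln E N n) (fun w => vc E (pt 3 w 3)) (fun w => vc E (pt 3 w 1))
      (fun w => (T (pt 3 w 2), pt 3 w 0)) ≤ d := by
    unfold MI
    have h1 : CH (q4 p G ln E N n) (fun w => vc E (pt 3 w 3))
        (fun w => (pt 3 w 0, (pt 3 w 1, pt 3 w 2))) ≤
        CH (q4 p G ln E N n) (fun w => vc E (pt 3 w 3))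
          (fun w => (vc E (pt 3 w 1), (T (pt 3 w 2), pt 3 w 0))) := by
      refine CH_mono_cond hq ?_
      intro w w' _ _ e
      simp only [Prod.mk.injEq] at e ⊢
      exact ⟨by rw [e.2.1], by rw [e.2.2], e.1⟩
    linarith
  rw [MI_symm hq] at m2
  unfold MI at m2
  linarith

/-- The first velocity is few given the last position. -/
theorem E_few (H : Mh p G ln W T P E D N n C K d) (hC : 0 ≤ C) (hnN : n ≤ N) {m : ℕ}
    (hm : m ≤ N) (hm3 : 3 < m) {ϖ : ℝ} (hϖ : d + Real.log 2 ≤ ϖ * (((m : ℝ) - 3) * Real.log 2)) :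
    CH (q4 p G ln E N n) (fun w => vc E (pt 3 w 1))
        (fun w => (vc P (pt 3 w 3), (vc E (pt 3 w 3), (T (pt 3 w 2), pt 3 w 0)))) ≤
      ϖ * (k * (((N : ℝ) - n) * Real.log 2)) + k * Real.log (8 * C * 2 ^ m + 1) := by
  classical
  have hp := H.law.nonneg
  have hq : ∀ w, 0 ≤ q4 p G ln E N n w := Qn_nonneg (c := lk (bl G E N n) ln) hp 3
  have hql : IsLaw (q4 p G ln E N n) := Qn_law H.law 3
  have hl2 : 0 < Real.log 2 := Real.log_pos (by norm_num)
  obtain ⟨q, hqe⟩ : ∃ q, q = q4 p G ln E N n := ⟨_, rfl⟩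
  obtain ⟨R, hR⟩ : ∃ R : Tn Ω 3 → (Fin k → ℤ) × ((Fin k → ℤ) × (ℤ × Ω)), R =
    fun w => (vc P (pt 3 w 3), (vc E (pt 3 w 3), (T (pt 3 w 2), pt 3 w 0))) := ⟨_, rfl⟩
  obtain ⟨F, hF⟩ : ∃ F, F = k * (((N : ℝ) - n) * Real.log 2) := ⟨_, rfl⟩
  have hF0 : 0 ≤ F := by
    rw [hF]
    have : (n : ℝ) ≤ N := by exact_mod_cast hnN
    have : 0 ≤ (N : ℝ) - n := by linarith
    positivity
  obtain ⟨Ev, hEv⟩ : ∃ Ev : Tn Ω 3 → Prop, Ev =
    fun w => |(T (pt 3 w 2) : ℝ) - T (pt 3 w 0)| < 2 ^ (N - m) := ⟨_, rfl⟩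
  rw [← hF, ← hR, ← hqe]
  rw [← hqe] at hq hql
  have hdE : Det q R Ev := by
    intro w w' _ _ e
    rw [hR] at e
    simp only [Prod.mk.injEq] at e
    rw [hEv]
    beta_reduce
    rw [e.2.2.1, e.2.2.2]
  -- the times are seldom near
  have hfull : N * Real.log 2 - d ≤ CH q (fun w => T (pt 3 w 2)) (fun w => pt 3 w 0) := by
    refine H.tf.trans ?_
    have h1 := step_ge (c := lk (bl G E N n) ln) hp 1 T ln (by
      rw [lk_odd _ _ (by omega)]
      intro ω ω' _ _ e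
      simp only [e]) (fun w : Tn Ω 2 => pt 2 w 0) (by
      intro w w' _ _ e
      have e3 := (Prod.ext_iff.mp e).2
      exact Pool.CHN.det_old (fun ω => ω) (by omega) w w' e3)
    refine h1.trans ?_
    obtain ⟨f, hf, hf2⟩ := win (ln := bl G E N n) (B := ln) hp 3 2 0 (by omega)
    rw [← hf.CH, hqe]
    refine le_of_eq ?_
    congr 1
    · funext w
      rw [hf2 w (1 + 1) (by omega)]
    · funext w
      rw [hf2 w 0 (by omega)]
  have hE1 := time_near hql (fun w => pt 3 w 0) (m := m) (fun w => T (pt 3 w 2))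
    (fun w => T (pt 3 w 0)) (fun w w' _ _ e => by
      beta_reduce at e ⊢
      rw [e]) (fun w hw => by
      rw [hqe] at hw
      exact H.t0 _ ((fc hp hw).pos 2 (by omega))) hfull hm
  rw [← hEv] at hE1
  have hm3' : 0 < ((m : ℝ) - 3) * Real.log 2 := by
    have : (3 : ℝ) < m := by exact_mod_cast hm3
    exact mul_pos (by linarith) hl2
  have hE2 : law q Ev True ≤ ϖ := le_of_mul_le_mul_right (hE1.trans hϖ) hm3'
  rw [CH_ev hq _ _ hdE]
  have b0 := law_nonneg hq Ev True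
  have b1 := law_nonneg hq Ev False
  have b2 := law_ev hql Ev
  have hlog : 0 ≤ k * Real.log (8 * C * 2 ^ m + 1) := by
    have : 0 ≤ Real.log (8 * C * 2 ^ m + 1) := Real.log_nonneg (by
      have : 0 ≤ 8 * C * 2 ^ m := by positivity
      linarith)
    positivity
  refine add_le_add ?_ ?_
  · rcases b0.eq_or_lt with e | e
    · rw [← e, zero_mul]
      exact mul_nonneg (b0.trans hE2) hF0
    · have hl : IsLaw (cond q Ev True) := ⟨cond_nonneg hq _ _, sum_cond _ _ e.ne'⟩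
      refine mul_le_mul hE2 ?_ (CH_nonneg hl.nonneg _ _) (b0.trans hE2)
      have h1 := CH_vec hl.nonneg R (b := (N - n : ℕ) * Real.log 2) k
        (fun i w => E i (pt 3 w 1)) fun i => CH_low hl _ _ (by
          intro w w' a b e'
          have a1 := ((cond_pos_iff hq Ev True w).1 a).1
          have b1 := ((cond_pos_iff hq Ev True w').1 b).1
          rw [hqe] at a1 b1
          rw [hR] at e'
          simp only [Prod.mk.injEq] at e'
          have x := fc hp a1
          have y := fc hp b1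
          have z : tv N n E (pt 3 w 1) = tv N n E (pt 3 w' 1) := by
            rw [← x.e1, ← y.e1, e'.2.2.2]
          exact congrFun z i)
      rw [Nat.cast_sub hnN] at h1
      rw [hF]
      exact h1
  · rcases b1.eq_or_lt with e | e
    · rw [← e, zero_mul]
      exact hlog
    · have hl : IsLaw (cond q Ev False) := ⟨cond_nonneg hq _ _, sum_cond _ _ e.ne'⟩
      have h1 := CH_vec_few hl R (L := 4 * C * 2 ^ m) (fun (i : Fin k) w => E i (pt 3 w 1)) (by
        intro i w w' a b e'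
        obtain ⟨a1, a2⟩ := (cond_pos_iff hq Ev False w).1 a
        obtain ⟨b1, -⟩ := (cond_pos_iff hq Ev False w').1 b
        rw [hqe] at a1 b1
        have a3 : 2 ^ (N - m) ≤ |(T (pt 3 w 2) : ℝ) - T (pt 3 w 0)| := by
          rw [hEv] at a2
          simpa using a2
        rw [hR] at e'
        simp only [Prod.mk.injEq] at e'
        obtain ⟨eP, eE, eT, e0⟩ := e'
        have eP' : P i (pt 3 w 3) = P i (pt 3 w' 3) := congrFun eP i
        have eE' : E i (pt 3 w 3) = E i (pt 3 w' 3) := congrFun eE i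
        have r1 := (fc hp a1).rel H i
        have r2 := (fc hp b1).rel H i
        rw [← eP', ← eE', ← eT, ← e0] at r2
        have x1 := abs_le.1 r1
        have x2 := abs_le.1 r2
        have h2 : |((T (pt 3 w 2) : ℝ) - T (pt 3 w 0)) *
            (((E i (pt 3 w 1) : ℝ) - E i (pt 3 w' 1)) / 2 ^ N)| ≤ 4 * C := by
          have e2 : ((T (pt 3 w 2) : ℝ) - T (pt 3 w 0)) *
            (((E i (pt 3 w 1) : ℝ) - E i (pt 3 w' 1)) / 2 ^ N) =
            ((P i (pt 3 w 3) : ℝ) - (P i (pt 3 w 0) +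
            T (pt 3 w 0) * (((E i (pt 3 w 0) : ℝ) - E i (pt 3 w' 1)) / 2 ^ N) +
            T (pt 3 w 2) * (((E i (pt 3 w' 1) : ℝ) - E i (pt 3 w 3)) / 2 ^ N))) -
            ((P i (pt 3 w 3) : ℝ) - (P i (pt 3 w 0) +
            T (pt 3 w 0) * (((E i (pt 3 w 0) : ℝ) - E i (pt 3 w 1)) / 2 ^ N) +
            T (pt 3 w 2) * (((E i (pt 3 w 1) : ℝ) - E i (pt 3 w 3)) / 2 ^ N))) := by ring
          rw [e2, abs_le]
          constructor <;> linarith [x1.1, x1.2, x2.1, x2.2]
        rw [abs_mul, abs_div, abs_of_pos (by positivity : (0 : ℝ) < 2 ^ N)] at h2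
        have h3 : (2 : ℝ) ^ (N - m) * (|(E i (pt 3 w 1) : ℝ) - E i (pt 3 w' 1)| / 2 ^ N) ≤
            4 * C := (mul_le_mul_of_nonneg_right a3 (by positivity)).trans h2
        have h4 : (2 : ℝ) ^ N = 2 ^ (N - m) * 2 ^ m := by
          rw [← pow_add]
          congr 1
          omega
        have h5 : (2 : ℝ) ^ (N - m) * (|(E i (pt 3 w 1) : ℝ) - E i (pt 3 w' 1)| / 2 ^ N) =
            |(E i (pt 3 w 1) : ℝ) - E i (pt 3 w' 1)| / 2 ^ m := by
          rw [h4]
          field_simp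
        rw [h5, div_le_iff₀ (by positivity)] at h3
        push_cast
        exact h3)
      have h2 : 2 * (4 * C * 2 ^ m) + 1 = 8 * C * 2 ^ m + 1 := by ring
      rw [h2] at h1
      calc law q Ev False * CH (cond q Ev False) (fun w => vc E (pt 3 w 1)) R ≤
          1 * (k * Real.log (8 * C * 2 ^ m + 1)) :=
            mul_le_mul (by linarith) h1 (CH_nonneg hl.nonneg _ _) zero_le_one
        _ = _ := one_mul _

/-- **Lemma (M).** The digits `(n, N]` of the positions at the time `0` are full given the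
velocities `E`, the velocities `D`, the top digits of the positions and the window. -/
theorem hop (H : Mh p G ln W T P E D N n C K d) (hC : 0 ≤ C) (hnN : n ≤ N) {m : ℕ}
    (hm : m ≤ N) (hm3 : 3 < m) {ϖ : ℝ} (hϖ : d + Real.log 2 ≤ ϖ * (((m : ℝ) - 3) * Real.log 2)) :
    k * (((N : ℝ) - n) * Real.log 2) - (3 * d + ϖ * (k * (((N : ℝ) - n) * Real.log 2)) +
      k * Real.log (8 * C * 2 ^ m + 1) + k * Real.log (8 * C + 5) +
      j * Real.log (8 * K + 1)) ≤
      CH p (vc P) (fun ω => (tv N n P ω, (vc E ω, (vc D ω, W ω)))) := by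
  have hp := H.law.nonneg
  have hq : ∀ w, 0 ≤ q4 p G ln E N n w := Qn_nonneg (c := lk (bl G E N n) ln) hp 3
  have hql : IsLaw (q4 p G ln E N n) := Qn_law H.law 3
  have h1 := E_full H hnN
  have h2 := E_few H hC hnN hm hm3 hϖ
  have h3 := CH_le_add hq (fun w => vc E (pt 3 w 1)) (fun w => vc P (pt 3 w 3))
    (fun w => (vc E (pt 3 w 3), (T (pt 3 w 2), pt 3 w 0)))
  obtain ⟨R, hR⟩ : ∃ R : Tn Ω 3 → (Fin k → ℤ) × (ℤ × Ω), R =
    fun w => (vc E (pt 3 w 3), (T (pt 3 w 2), pt 3 w 0)) := ⟨_, rfl⟩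
  rw [← hR] at h1 h3
  -- the few variables
  have h4 : CH (q4 p G ln E N n) (fun w => (tv N n P (pt 3 w 3), (vc D (pt 3 w 3),
      W (pt 3 w 3)))) R ≤ k * Real.log (8 * C + 5) + j * Real.log (8 * K + 1) := by
    have g1 : CH (q4 p G ln E N n) (fun w => tv N n P (pt 3 w 3)) R ≤
        k * Real.log (8 * C + 5) := by
      refine CH_vec hq R (b := Real.log (8 * C + 5)) k
        (fun i w => tp N n (P i (pt 3 w 3))) fun i => ?_
      have x := Pool.LPX.CH_few_tp hql (fun w => P i (pt 3 w 3)) R (X := N) (m := n)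
        (L := 4 * C + 1) (by
          intro w w' a b e'
          rw [hR] at e'
          simp only [Prod.mk.injEq] at e'
          obtain ⟨eE, eT, e0⟩ := e'
          have eE' : E i (pt 3 w 3) = E i (pt 3 w' 3) := congrFun eE i
          have fa := fc hp a
          have fb := fc hp b
          have r1 := fa.rel H i
          have r2 := fb.rel H i
          rw [← eE', ← eT, ← e0] at r2
          have x1 := abs_le.1 r1
          have x2 := abs_le.1 r2
          have z : tp N n (E i (pt 3 w 1)) = tp N n (E i (pt 3 w' 1)) := by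
            have : tv N n E (pt 3 w 1) = tv N n E (pt 3 w' 1) := by rw [← fa.e1, ← fb.e1, e0]
            exact congrFun this i
          have z2 := Pool.LPX.of_tp_eq N n z
          have t1 := H.t0 _ (fa.pos 0 (by omega))
          have t2 := H.t0 _ (fa.pos 2 (by omega))
          have s1 : (0 : ℝ) ≤ T (pt 3 w 0) := by exact_mod_cast t1.1
          have s2 : (T (pt 3 w 0) : ℝ) < 2 ^ N := by exact_mod_cast t1.2
          have s3 : (0 : ℝ) ≤ T (pt 3 w 2) := by exact_mod_cast t2.1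
          have s4 : (T (pt 3 w 2) : ℝ) < 2 ^ N := by exact_mod_cast t2.2
          have s5 : |((T (pt 3 w 2) : ℝ) - T (pt 3 w 0)) / 2 ^ N| ≤ 1 := by
            rw [abs_div, abs_of_pos (by positivity : (0 : ℝ) < 2 ^ N), div_le_one (by positivity),
              abs_le]
            constructor <;> linarith
          have s6 : |((T (pt 3 w 2) : ℝ) - T (pt 3 w 0)) / 2 ^ N *
              ((E i (pt 3 w 1) : ℝ) - E i (pt 3 w' 1))| ≤ 2 ^ (N - n) := by
            rw [abs_mul]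
            calc _ ≤ 1 * (2 : ℝ) ^ (N - n) :=
                  mul_le_mul s5 z2 (abs_nonneg _) zero_le_one
              _ = _ := one_mul _
          have s7 := abs_le.1 s6
          have s8 : (1 : ℝ) ≤ 2 ^ (N - n) := one_le_pow₀ (by norm_num)
          have s9 : (P i (pt 3 w 3) : ℝ) - P i (pt 3 w' 3) =
            ((P i (pt 3 w 3) : ℝ) - (P i (pt 3 w 0) +
            T (pt 3 w 0) * (((E i (pt 3 w 0) : ℝ) - E i (pt 3 w 1)) / 2 ^ N) +
            T (pt 3 w 2) * (((E i (pt 3 w 1) : ℝ) - E i (pt 3 w 3)) / 2 ^ N))) -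
            ((P i (pt 3 w' 3) : ℝ) - (P i (pt 3 w 0) +
            T (pt 3 w 0) * (((E i (pt 3 w 0) : ℝ) - E i (pt 3 w' 1)) / 2 ^ N) +
            T (pt 3 w 2) * (((E i (pt 3 w' 1) : ℝ) - E i (pt 3 w 3)) / 2 ^ N))) +
            ((T (pt 3 w 2) : ℝ) - T (pt 3 w 0)) / 2 ^ N *
              ((E i (pt 3 w 1) : ℝ) - E i (pt 3 w' 1)) := by ring
          have s10 : |(P i (pt 3 w 3) : ℝ) - P i (pt 3 w' 3)| ≤ 4 * C + 2 ^ (N - n) := by
            rw [s9, abs_le]
            constructor <;> linarith [x1.1, x1.2, x2.1, x2.2, s7.1, s7.2]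
          refine s10.trans ?_
          nlinarith)
      have e5 : 2 * (4 * C + 1) + 3 = 8 * C + 5 := by ring
      rw [e5] at x
      exact x
    have g2 : CH (q4 p G ln E N n) (fun w => vc D (pt 3 w 3)) R ≤ j * Real.log (8 * K + 1) := by
      have x := CH_vec_few hql R (L := 4 * K) (fun (i : Fin j) w => D i (pt 3 w 3)) (by
        intro i w w' a b e'
        rw [hR] at e'
        simp only [Prod.mk.injEq] at e'
        have d1 := abs_le.1 ((fc hp a).D3 H i)
        have d2 := abs_le.1 ((fc hp b).D3 H i)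
        rw [← e'.2.2] at d2
        push_cast
        rw [abs_le]
        constructor <;> linarith [d1.1, d1.2, d2.1, d2.2])
      have e5 : 2 * (4 * K) + 1 = 8 * K + 1 := by ring
      rw [e5] at x
      exact x
    have g3 : CH (q4 p G ln E N n) (fun w => W (pt 3 w 3)) R = 0 := by
      refine CH_eq_zero hq ?_
      intro w w' a b e'
      rw [hR] at e'
      simp only [Prod.mk.injEq] at e'
      beta_reduce
      rw [(fc hp a).W3 H, (fc hp b).W3 H, e'.2.2]
    have g4 := CH_subadd hq (fun w => tv N n P (pt 3 w 3))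
      (fun w => (vc D (pt 3 w 3), W (pt 3 w 3))) R
    have g5 := CH_subadd hq (fun w => vc D (pt 3 w 3)) (fun w => W (pt 3 w 3)) R
    linarith
  have h5 := CH_le_add hq (fun w => vc P (pt 3 w 3)) (fun w => (tv N n P (pt 3 w 3),
    (vc D (pt 3 w 3), W (pt 3 w 3)))) R
  have h6 : CH (q4 p G ln E N n) (fun w => vc P (pt 3 w 3)) (fun w => ((tv N n P (pt 3 w 3),
      (vc D (pt 3 w 3), W (pt 3 w 3))), R w)) ≤
      CH p (vc P) (fun ω => (tv N n P ω, (vc E ω, (vc D ω, W ω)))) := by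
    rw [← (Qn_pt (c := lk (bl G E N n) ln) hp 3 3 le_rfl).CH (vc P)
      (fun ω => (tv N n P ω, (vc E ω, (vc D ω, W ω))))]
    refine CH_mono_cond hq ?_
    intro w w' _ _ e
    rw [hR] at e
    simp only [Prod.mk.injEq] at e ⊢
    exact ⟨e.1.1, e.2.1, e.1.2.1, e.1.2.2⟩
  linarith

end Pool.MM
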